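import Mathlib
import Pool.Graph.R_seed8.Y787.AS.Germ

/-!
# Generic sequences, germs, transcendence degree; a countable ground field
-/

set_option autoImplicit false

namespace Pool.Agent.Helper71.SFE

open Finset Module Filter
open Pool.Agent.Y787.AS (GE ge ge_eq ge_eq_zero)

variable {k : Type} [Field k]

/-- a sequence of points of a dense set together with arbitrary generic points -/
theorem exists_generic_mem [Infinite k] [Countable k] {ι κ X : Type} [Finite ι] [Finite κ]
    (B : Set X) (f : X → ι → k)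
    (hB : ∀ Ψ : MvPolynomial ι k, Ψ ≠ 0 → ∃ x ∈ B, MvPolynomial.eval (f x) Ψ ≠ 0) :
    ∃ (x : ℕ → X) (p : ℕ → κ → k), (∀ j, x j ∈ B) ∧
      ∀ Ψ : MvPolynomial (ι ⊕ κ) k, Ψ ≠ 0 →
        ∀ᶠ j in Filter.atTop, MvPolynomial.eval (Sum.elim (f (x j)) (p j)) Ψ ≠ 0 := by
  classical
  have hcount : Countable (MvPolynomial (ι ⊕ κ) k) := by
    rw [← Cardinal.mk_le_aleph0_iff]
    refine (MvPolynomial.cardinalMk_le_max).trans ?_
    simp
  obtain ⟨F, hF⟩ := exists_surjective_nat (MvPolynomial (ι ⊕ κ) k)
  have h : ∀ j : ℕ, ∃ x ∈ B, ∃ p : κ → k,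
      MvPolynomial.eval (Sum.elim (f x) p)
        (∏ i ∈ range (j + 1), if F i = 0 then 1 else F i) ≠ 0 := by
    intro j
    set Q₀ : MvPolynomial (ι ⊕ κ) k := ∏ i ∈ range (j + 1), if F i = 0 then 1 else F i with hQ
    have hQ0 : Q₀ ≠ 0 := by
      intro h1
      rw [hQ, Finset.prod_eq_zero_iff] at h1
      obtain ⟨i, -, hi⟩ := h1
      split_ifs at hi with h0
      · exact one_ne_zero hi
      · exact h0 hi
    obtain ⟨t, ht⟩ : ∃ t : ι ⊕ κ → k, MvPolynomial.eval t Q₀ ≠ 0 := by
      by_contra hcon
      push Not at hcon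
      exact hQ0 (MvPolynomial.funext fun x => by rw [hcon x, map_zero])
    -- specialise the second group of variables
    set Φ : MvPolynomial ι k := MvPolynomial.aeval
      (Sum.elim (fun i => (MvPolynomial.X i : MvPolynomial ι k))
        (fun a => MvPolynomial.C (t (Sum.inr a)))) Q₀ with hΦ
    have heval : ∀ s : ι → k, MvPolynomial.eval s Φ =
        MvPolynomial.eval (Sum.elim s (fun a => t (Sum.inr a))) Q₀ := by
      intro s
      have h1 : (MvPolynomial.eval s).comp (MvPolynomial.aeval (R := k)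
          (Sum.elim (fun i => (MvPolynomial.X i : MvPolynomial ι k))
          (fun a => MvPolynomial.C (t (Sum.inr a))))).toRingHom =
          MvPolynomial.eval (Sum.elim s (fun a => t (Sum.inr a))) := by
        apply MvPolynomial.ringHom_ext
        · intro r
          simp
        · intro i
          rcases i with i | i
          · simp
          · simp
      exact congrArg (fun g => g Q₀) h1
    have hΦ0 : Φ ≠ 0 := by
      intro h0
      apply ht
      have h1 := heval (fun i => t (Sum.inl i))
      rw [h0, map_zero] at h1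
      have h2 : Sum.elim (fun i => t (Sum.inl i)) (fun a => t (Sum.inr a)) = t := by
        funext r
        rcases r with r | r <;> rfl
      rw [h2] at h1
      exact h1.symm
    obtain ⟨x, hx, hx'⟩ := hB Φ hΦ0
    exact ⟨x, hx, fun a => t (Sum.inr a), by rw [← heval]; exact hx'⟩
  choose x hx p hp using h
  refine ⟨x, p, hx, fun Ψ hΨ => ?_⟩
  obtain ⟨i, rfl⟩ := hF Ψ
  filter_upwards [Filter.eventually_ge_atTop i] with j hj
  have h1 := hp j
  rw [map_prod, Finset.prod_ne_zero_iff] at h1
  have h2 := h1 i (Finset.mem_range.2 (by omega))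
  rwa [if_neg hΨ] at h2

/-- pigeonhole principle for ultrafilters -/
theorem ultra_pigeon {α T : Type} [Finite T] (𝒰 : Ultrafilter α) (p : T → α → Prop)
    (h : ∀ᶠ j in (𝒰 : Filter α), ∃ t, p t j) : ∃ t, ∀ᶠ j in (𝒰 : Filter α), p t j := by
  by_contra hcon
  push Not at hcon
  have h1 : ∀ᶠ j in (𝒰 : Filter α), ∀ t, ¬ p t j := by
    rw [Filter.eventually_all]
    intro t
    exact hcon t
  obtain ⟨j, ⟨t, ht⟩, h2⟩ := (h.and h1).exists
  exact h2 t ht

/-- the transcendence degree of a field generated by two families -/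
theorem trdeg_bound {K : Type} [Field K] [Algebra k K] (S T Z : Set K) (d e : ℕ)
    (hS : ∀ s : Fin (d + 1) → K, (∀ i, s i ∈ S) → ¬ AlgebraicIndependent k s)
    (hT : T.encard ≤ e) (hZ : AlgebraicIndepOn k id Z)
    (hZS : ∀ z ∈ Z, IsAlgebraic (Algebra.adjoin k (S ∪ T)) z) : Z.encard ≤ (d + e : ℕ) := by
  classical
  set M := AlgebraicIndependent.matroid k K with hM
  have hZi : M.Indep Z := AlgebraicIndependent.matroid_indep_iff.2 hZ
  have h1 : Z ⊆ M.closure (S ∪ T) := by
    intro z hz
    rw [hM, AlgebraicIndependent.matroid_closure_eq]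
    exact hZS z hz
  have h2 : Z.encard ≤ M.eRk (S ∪ T) := by
    rw [← M.eRk_closure_eq]
    exact hZi.encard_le_eRk_of_subset h1
  have h3 : M.eRk S ≤ d := by
    rw [Matroid.eRk_le_iff]
    intro I hIS hI
    by_contra hcon
    push Not at hcon
    have h4 : ((d + 1 : ℕ) : ℕ∞) ≤ I.encard := by
      have := Order.add_one_le_of_lt hcon
      exact_mod_cast this
    obtain ⟨J, hJI, hJ⟩ := Set.exists_subset_encard_eq h4
    have hJfin : J.Finite := Set.finite_of_encard_eq_coe hJ
    have hJc : J.ncard = d + 1 := by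
      rw [Set.ncard_def, hJ]
      rfl
    have hft : Finite J := hJfin
    have hcard : Nat.card J = d + 1 := hJc
    let e : Fin (d + 1) ≃ J := (Finite.equivFinOfCardEq hcard).symm
    refine hS (fun i => (e i : K)) (fun i => hIS (hJI (e i).2)) ?_
    have h5 : AlgebraicIndepOn k id J := AlgebraicIndependent.matroid_indep_iff.1 (hI.subset hJI)
    exact AlgebraicIndependent.comp h5 e e.injective
  have h4 : M.eRk T ≤ e := (M.eRk_le_encard T).trans hT
  calc Z.encard ≤ M.eRk (S ∪ T) := h2
    _ ≤ M.eRk S + M.eRk T := M.eRk_union_le_eRk_add_eRk S T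
    _ ≤ d + e := add_le_add h3 h4
    _ = (d + e : ℕ) := by push_cast; rfl

/-- the structure of an algebra over the ground field -/
@[reducible] noncomputable def algKG (k : Type) [Field k] (𝒰 : Ultrafilter ℕ) : Algebra k (GE 𝒰 k) :=
  ((ge 𝒰 k).comp (Pi.constRingHom ℕ k)).toAlgebra

theorem aeval_germ {ι : Type} (𝒰 : Ultrafilter ℕ) (z : ℕ → ι → k)
    (Ψ : MvPolynomial ι k) :
    letI := algKG k 𝒰
    MvPolynomial.aeval (fun i => ge 𝒰 k (fun j => z j i)) Ψ =
      ge 𝒰 k (fun j => MvPolynomial.eval (z j) Ψ) := by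
  letI := algKG k 𝒰
  have h : (MvPolynomial.aeval (R := k) (fun i => ge 𝒰 k (fun j => z j i))).toRingHom =
      (ge 𝒰 k).comp (RingHom.pi fun j => MvPolynomial.eval (z j)) := by
    apply MvPolynomial.ringHom_ext
    · intro r
      simp only [AlgHom.toRingHom_eq_coe, RingHom.coe_coe, MvPolynomial.aeval_C, RingHom.comp_apply]
      change ge 𝒰 k (fun _ => r) = _
      congr 1
      funext j
      exact (MvPolynomial.eval_C r).symm
    · intro i
      simp only [AlgHom.toRingHom_eq_coe, RingHom.coe_coe, MvPolynomial.aeval_X, RingHom.comp_apply]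
      congr 1
      funext j
      exact (MvPolynomial.eval_X i).symm
  exact congrArg (fun f => f Ψ) h

/-- germs of a generic sequence are algebraically independent -/
theorem germ_indep {ι : Type} (𝒰 : Ultrafilter ℕ) (h𝒰 : (𝒰 : Filter ℕ) ≤ atTop)
    (z : ℕ → ι → k)
    (hz : ∀ Ψ : MvPolynomial ι k, Ψ ≠ 0 → ∀ᶠ j in Filter.atTop, MvPolynomial.eval (z j) Ψ ≠ 0) :
    letI := algKG k 𝒰
    AlgebraicIndependent k (fun i => ge 𝒰 k (fun j => z j i)) := by
  letI := algKG k 𝒰
  rw [algebraicIndependent_iff]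
  intro Ψ hΨ
  by_contra hne
  have h1 := (hz Ψ hne).filter_mono h𝒰
  rw [aeval_germ, ge_eq_zero] at hΨ
  obtain ⟨j, h3, h4⟩ := (h1.and hΨ).exists
  exact h3 h4

/-- a polynomial relation of germs -/
theorem germ_dep {ι : Type} (𝒰 : Ultrafilter ℕ) (z : ℕ → ι → k)
    (Ψ : MvPolynomial ι k) (hΨ : Ψ ≠ 0)
    (h : ∀ᶠ j in (𝒰 : Filter ℕ), MvPolynomial.eval (z j) Ψ = 0) :
    letI := algKG k 𝒰
    ¬ AlgebraicIndependent k (fun i => ge 𝒰 k (fun j => z j i)) := by
  letI := algKG k 𝒰
  intro hi
  rw [algebraicIndependent_iff] at hi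
  apply hΨ
  apply hi
  rw [aeval_germ, ge_eq_zero]
  exact h

/-- the elements algebraic over a subring form a field -/
def algField {K : Type} [Field K] [Algebra k K] (R : Subalgebra k K) : Subfield K where
  carrier := {x | IsAlgebraic R x}
  mul_mem' := fun ha hb => IsAlgebraic.mul ha hb
  one_mem' := isAlgebraic_one
  add_mem' := fun ha hb => IsAlgebraic.add ha hb
  zero_mem' := isAlgebraic_zero
  neg_mem' := fun ha => IsAlgebraic.neg ha
  inv_mem' := fun _ ha => IsAlgebraic.inv ha

/-- a regular minor of a matrix with independent rows -/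
theorem exists_minor {m n : ℕ} (B : Matrix (Fin m) (Fin n) k)
    (hB : ∀ w : Fin m → k, (∀ a, ∑ i, w i * B i a = 0) → w = 0) :
    ∃ e : Fin m → Fin n, Function.Injective e ∧ (Matrix.of fun i i' => B i (e i')).det ≠ 0 := by
  classical
  have hspan : Submodule.span k (Set.range fun a => fun i => B i a) = ⊤ := by
    by_contra hne
    obtain ⟨f, hf0, hf⟩ := Submodule.exists_le_ker_of_lt_top _ (lt_top_iff_ne_top.2 hne)
    apply hf0
    have h1 : (fun i => f (Pi.single i 1)) = 0 := by
      apply hB
      intro a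
      have h2 : f (fun i => B i a) = 0 := by
        have := hf (Submodule.subset_span ⟨a, rfl⟩)
        exact this
      have h3 : (fun i => B i a) = ∑ i, B i a • (Pi.single i (1 : k) : Fin m → k) := by
        funext i
        simp [Finset.sum_apply, Pi.single_apply]
      rw [h3, map_sum] at h2
      rw [← h2]
      refine Finset.sum_congr rfl fun i _ => ?_
      rw [map_smul, smul_eq_mul, mul_comm]
    refine LinearMap.pi_ext' fun i => LinearMap.ext_ring ?_
    have h3 := congrFun h1 i
    simpa using h3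
  have hfr : finrank k (Submodule.span k (Set.range fun a => fun i : Fin m => B i a)) = m := by
    rw [hspan, finrank_top, finrank_fintype_fun_eq_card, Fintype.card_fin]
  have key : ∀ m' : ℕ, finrank k (Submodule.span k (Set.range fun a => fun i : Fin m => B i a)) = m' →
      ∃ f : Fin m' → (Fin m → k), (∀ i, f i ∈ Set.range fun a => fun i : Fin m => B i a) ∧
        LinearIndependent k f := by
    rintro m' rfl
    obtain ⟨f, hf, -, hli⟩ := Submodule.exists_fun_fin_finrank_span_eq k
      (Set.range fun a => fun i : Fin m => B i a)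
    exact ⟨f, hf, hli⟩
  obtain ⟨f, hf, hli⟩ := key m hfr
  choose e he using hf
  refine ⟨e, fun a b hab => hli.injective ?_, ?_⟩
  · rw [← he a, ← he b, hab]
  · intro h0
    obtain ⟨v, hv, hv0⟩ := Matrix.exists_mulVec_eq_zero_iff.2 h0
    apply hv
    have h1 := Fintype.linearIndependent_iff.1 hli v (by
      funext i
      rw [Finset.sum_apply, Pi.zero_apply]
      have h2 := congrFun hv0 i
      simp only [Matrix.mulVec, dotProduct, Matrix.of_apply, Pi.zero_apply] at h2
      rw [← h2]
      refine Finset.sum_congr rfl fun a _ => ?_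
      rw [Pi.smul_apply, smul_eq_mul, mul_comm, ← he a])
    funext i
    exact h1 i

end Pool.Agent.Helper71.SFE
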