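import Mathlib
import Pool.Agent.Helper71.SFE.Gen

/-!
# Extension of spaces without bad tuples
-/

set_option autoImplicit false

namespace Pool.Agent.Helper71.SFE

open Finset Module Filter
open Pool.Agent.Y787.AS (GE ge ge_eq ge_eq_zero)

variable {k E : Type} [Field k] [Field E] [Algebra k E] {N : ℕ}

/-- no bad tuple with entries in `V` -/
def Free (B : (Fin N → E) → Prop) (V : Submodule k E) : Prop :=
  ∀ r : Fin N → E, (∀ i, r i ∈ V) → ¬ B r

theorem Free.mono {B : (Fin N → E) → Prop} {V V' : Submodule k E} (h : V ≤ V') (hV : Free B V') :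
    Free B V := fun r hr => hV r fun i => h (hr i)

/-- a family of tuples of bounded dimension, invariant under the linear group -/
structure BadSet (𝓛 : Submodule k E) (B : (Fin N → E) → Prop) (D : ℕ) : Prop where
  indep : ∀ r, B r → LinearIndependent k r
  act : ∀ r, B r → ∀ h : Matrix (Fin N) (Fin N) k, h.det ≠ 0 → B (fun i => ∑ j, h i j • r j)
  dim : ∀ F : Submodule k E, Module.Finite k F → F ≤ 𝓛 →
    ∀ φ : Fin (D + 1) → ((Fin N → F) →ₗ[k] k),
    ∃ P : MvPolynomial (Fin (D + 1)) k, P ≠ 0 ∧ ∀ r : Fin N → F, B (fun i => (r i : E)) →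
      MvPolynomial.eval (fun i => φ i r) P = 0

/-- the properties of the bad tuples used below -/
def Vio (B : (Fin N → E) → Prop) {F : Submodule k E} [Module.Finite k F] {c q : ℕ}
    (π : Fin q → (F →ₗ[k] k)) (φ : Fin c → Fin q → k) (P : Matrix (Fin N) (Fin N) k)
    (J : Fin N → Fin (finrank k F)) (i₀ : Fin N) (k₀ : Fin q) (r : Fin N → F) : Prop :=
  B (fun i => (r i : E)) ∧ (∀ b i, ∑ a, φ b a * π a (r i) = 0) ∧
    (∀ i i', (Module.finBasis k F).repr (r i) (J i') = P i i') ∧ π k₀ (r i₀) ≠ 0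

theorem exists_vio {𝓛 : Submodule k E} {B : (Fin N → E) → Prop} {D : ℕ} (hB : BadSet 𝓛 B D)
    {F G : Submodule k E} [Module.Finite k F] {c q : ℕ} (hG : Free B G)
    (π : Fin q → (F →ₗ[k] k)) (hπ : ∀ x : F, (∀ a, π a x = 0) → (x : E) ∈ G)
    (φ : Fin c → Fin q → k)
    (hbad : ¬ Free B ((LinearMap.ker (LinearMap.pi fun b : Fin c => ∑ a, φ b a • π a)).map
      F.subtype)) (P : Matrix (Fin N) (Fin N) k) (hP : P.det ≠ 0) :
    ∃ (J : Fin N → Fin (finrank k F)) (i₀ : Fin N) (k₀ : Fin q) (r : Fin N → F),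
      Vio B π φ P J i₀ k₀ r := by
  classical
  unfold Free at hbad
  push Not at hbad
  obtain ⟨r₁, hr₁, hBr₁⟩ := hbad
  have h1 : ∀ i, ∃ x : F, (x : E) = r₁ i ∧ ∀ b, ∑ a, φ b a * π a x = 0 := by
    intro i
    obtain ⟨x, hx, hx'⟩ := Submodule.mem_map.1 (hr₁ i)
    refine ⟨x, hx', fun b => ?_⟩
    have := congrFun (LinearMap.mem_ker.1 hx) b
    simpa [LinearMap.sum_apply] using this
  choose r₀ hr₀ hφ using h1
  have hBr₀ : B (fun i => (r₀ i : E)) := by
    have : (fun i => (r₀ i : E)) = r₁ := funext hr₀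
    rw [this]
    exact hBr₁
  have hli : LinearIndependent k r₀ := LinearIndependent.of_comp F.subtype (hB.indep _ hBr₀)
  set b := Module.finBasis k F with hb
  obtain ⟨J, -, hJ⟩ := exists_minor (Matrix.of fun i j => b.repr (r₀ i) j) (by
    intro w hw
    funext i
    refine Fintype.linearIndependent_iff.1 hli w ?_ i
    apply b.ext_elem
    intro j
    rw [map_sum, map_zero, Finsupp.coe_finsetSum, Finset.sum_apply, Finsupp.zero_apply, ← hw j]
    refine Finset.sum_congr rfl fun i _ => ?_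
    rw [map_smul, Finsupp.smul_apply, smul_eq_mul]
    rfl)
  set C : Matrix (Fin N) (Fin N) k := Matrix.of fun i i' => b.repr (r₀ i) (J i') with hC
  have hCd : C.det ≠ 0 := hJ
  have hCu : IsUnit C.det := isUnit_iff_ne_zero.2 hCd
  set h : Matrix (Fin N) (Fin N) k := P * C⁻¹ with hh
  have hhd : h.det ≠ 0 := by
    rw [hh, Matrix.det_mul]
    refine mul_ne_zero hP ?_
    intro h0
    have h2 := congrArg Matrix.det (Matrix.mul_nonsing_inv _ hCu)
    rw [Matrix.det_mul, h0, mul_zero, Matrix.det_one] at h2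
    exact zero_ne_one h2
  have hBr : B (fun i => ((∑ j, h i j • r₀ j : F) : E)) := by
    have h2 := hB.act _ hBr₀ h hhd
    have h3 : (fun i => ((∑ j, h i j • r₀ j : F) : E)) = fun i => ∑ j, h i j • (r₀ j : E) := by
      funext i
      rw [Submodule.coe_sum]
      rfl
    rw [h3]
    exact h2
  have hne : ∃ i a, π a (∑ j, h i j • r₀ j) ≠ 0 := by
    by_contra hcon
    push Not at hcon
    exact hG _ (fun i => hπ _ (hcon i)) hBr
  obtain ⟨i₀, k₀, hik⟩ := hne
  refine ⟨J, i₀, k₀, fun i => ∑ j, h i j • r₀ j, hBr, ?_, ?_, hik⟩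
  · intro b' i
    simp only [map_sum, map_smul, smul_eq_mul, Finset.mul_sum]
    rw [Finset.sum_comm]
    refine Finset.sum_eq_zero fun j _ => ?_
    calc ∑ a, φ b' a * (h i j * π a (r₀ j)) = h i j * ∑ a, φ b' a * π a (r₀ j) := by
          rw [Finset.mul_sum]
          exact Finset.sum_congr rfl fun a _ => by ring
      _ = 0 := by rw [hφ j b', mul_zero]
  · intro i i'
    rw [map_sum, Finsupp.coe_finsetSum, Finset.sum_apply]
    have h2 : h * C = P := by
      rw [hh, Matrix.mul_assoc, Matrix.nonsing_inv_mul _ hCu, Matrix.mul_one]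
    rw [← h2, Matrix.mul_apply]
    refine Finset.sum_congr rfl fun j _ => ?_
    rw [map_smul, Finsupp.smul_apply, smul_eq_mul]
    rfl

/-- **The generic functional.** -/
theorem generic_bound {𝓛 : Submodule k E} {B : (Fin N → E) → Prop} {D : ℕ} (hB : BadSet 𝓛 B D)
    {F : Submodule k E} [Module.Finite k F] (hF : F ≤ 𝓛) {c q : ℕ}
    (π : Fin q → (F →ₗ[k] k)) (J : Fin N → Fin (finrank k F)) (i₀ : Fin N) (k₀ : Fin q)
    (z : ℕ → (Fin c × Fin q) ⊕ (Fin N × Fin N) → k)
    (hz : ∀ Ψ : MvPolynomial ((Fin c × Fin q) ⊕ (Fin N × Fin N)) k, Ψ ≠ 0 →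
      ∀ᶠ j in Filter.atTop, MvPolynomial.eval (z j) Ψ ≠ 0)
    (𝒰 : Ultrafilter ℕ) (h𝒰 : (𝒰 : Filter ℕ) ≤ atTop)
    (h : ∀ᶠ j in (𝒰 : Filter ℕ), ∃ r : Fin N → F,
      Vio B π (fun b a => z j (Sum.inl (b, a)))
        (Matrix.of fun i i' => z j (Sum.inr (i, i'))) J i₀ k₀ r) :
    c + N * N ≤ D := by
  classical
  letI algK := algKG k 𝒰
  -- the choice
  have hch : ∀ j, ∃ r : Fin N → F, (∃ r : Fin N → F,
      Vio B π (fun b a => z j (Sum.inl (b, a)))
        (Matrix.of fun i i' => z j (Sum.inr (i, i'))) J i₀ k₀ r) →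
      Vio B π (fun b a => z j (Sum.inl (b, a)))
        (Matrix.of fun i i' => z j (Sum.inr (i, i'))) J i₀ k₀ r := by
    intro j
    by_cases hj : ∃ r : Fin N → F, Vio B π (fun b a => z j (Sum.inl (b, a)))
        (Matrix.of fun i i' => z j (Sum.inr (i, i'))) J i₀ k₀ r
    · obtain ⟨r, hr⟩ := hj
      exact ⟨r, fun _ => hr⟩
    · exact ⟨0, fun h => absurd h hj⟩
  choose r hr using hch
  have hV := h.mono hr
  -- the germs
  let xs : Fin c × Fin q → GE 𝒰 k := fun p => ge 𝒰 k (fun j => z j (Sum.inl p))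
  let ps : Fin N × Fin N → GE 𝒰 k := fun p => ge 𝒰 k (fun j => z j (Sum.inr p))
  let ψ : (Fin N × Fin q) ⊕ (Fin N × Fin (finrank k F)) → ((Fin N → F) →ₗ[k] k) :=
    Sum.elim (fun p => π p.2 ∘ₗ LinearMap.proj p.1)
      (fun p => (Module.finBasis k F).coord p.2 ∘ₗ LinearMap.proj p.1)
  have hψ1 : ∀ p (C : Fin N → F), ψ (Sum.inl p) C = π p.2 (C p.1) := fun p C => rfl
  have hψ2 : ∀ p (C : Fin N → F), ψ (Sum.inr p) C = (Module.finBasis k F).repr (C p.1) p.2 :=
    fun p C => rfl
  let ys : (Fin N × Fin q) ⊕ (Fin N × Fin (finrank k F)) → GE 𝒰 k := fun s =>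
    ge 𝒰 k (fun j => ψ s (r j))
  have hps : ∀ p : Fin N × Fin N, ys (Sum.inr (p.1, J p.2)) = ps p := by
    intro p
    rw [ge_eq]
    refine hV.mono fun j hj => ?_
    have h1 := hj.2.2.1 p.1 p.2
    rw [hψ2]
    exact h1
  -- independence
  have hind : AlgebraicIndependent k (fun i => ge 𝒰 k (fun j => z j i)) :=
    germ_indep 𝒰 h𝒰 z hz
  have hind' : AlgebraicIndependent k (Sum.elim xs ps) := by
    convert hind using 1
    funext s
    rcases s with s | s
    · rfl
    · rfl
  set Z : Set (GE 𝒰 k) := Set.range (Sum.elim xs ps) with hZdef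
  have hZcard : Z.encard = (c * q + N * N : ℕ) := by
    have h2 : Function.Injective (Sum.elim xs ps) := hind'.injective
    rw [hZdef, ← Set.image_univ, h2.encard_image, Set.encard_univ, ENat.card_eq_coe_fintype_card]
    simp
  set S : Set (GE 𝒰 k) := Set.range ys with hSdef
  set T : Set (GE 𝒰 k) := (fun p => xs p) '' {p : Fin c × Fin q | p.2 ≠ k₀} with hTdef
  have hTcard : T.encard ≤ (c * (q - 1) : ℕ) := by
    refine (Set.encard_image_le _ _).trans ?_
    have h3 : {p : Fin c × Fin q | p.2 ≠ k₀} =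
        ((Finset.univ : Finset (Fin c)) ×ˢ (Finset.univ.erase k₀ : Finset (Fin q)) :
          Finset (Fin c × Fin q)) := by
      ext p
      simp
    rw [h3, Set.encard_coe_eq_coe_finsetCard, Finset.card_product, Finset.card_erase_of_mem
      (Finset.mem_univ _)]
    simp
  have hmain := trdeg_bound S T Z D (c * (q - 1)) ?_ hTcard
    hind'.to_subtype_range ?_
  · rw [hZcard] at hmain
    have h4 : c * q + N * N ≤ D + c * (q - 1) := by exact_mod_cast hmain
    have hq : 1 ≤ q := Nat.succ_le_of_lt (lt_of_le_of_lt (Nat.zero_le _) k₀.2)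
    obtain ⟨q', rfl⟩ : ∃ q', q = q' + 1 := ⟨q - 1, by omega⟩
    rw [Nat.add_sub_cancel, Nat.mul_succ] at h4
    omega
  · -- many elements are dependent
    intro s hs
    choose t ht using hs
    obtain ⟨Ψ, hΨ, hΨ0⟩ := hB.dim F inferInstance hF (fun i => ψ (t i))
    have h5 : s = fun i => ge 𝒰 k (fun j => (fun i => ψ (t i) (r j)) i) := by
      funext i
      exact (ht i).symm
    rw [h5]
    exact germ_dep 𝒰 (fun j i => ψ (t i) (r j)) Ψ hΨ
      (hV.mono fun j hj => hΨ0 (r j) hj.1)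
  · -- everything is algebraic
    set R' := Algebra.adjoin k (S ∪ T) with hR'
    have hmemS : ∀ s, ys s ∈ algField R' := fun s =>
      isAlgebraic_algebraMap (⟨ys s, Algebra.subset_adjoin (Or.inl ⟨s, rfl⟩)⟩ : R')
    have hmemT : ∀ p : Fin c × Fin q, p.2 ≠ k₀ → xs p ∈ algField R' := fun p hp =>
      isAlgebraic_algebraMap (⟨xs p, Algebra.subset_adjoin (Or.inr ⟨p, hp, rfl⟩)⟩ : R')
    rintro _ ⟨s, rfl⟩
    rcases s with ⟨b, a⟩ | s
    · by_cases ha : a = k₀
      · subst ha
        -- the linear relation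
        have hy0 : ys (Sum.inl (i₀, a)) ≠ 0 := by
          intro h0
          rw [ge_eq_zero] at h0
          obtain ⟨j, h6, h7⟩ := (h0.and hV).exists
          exact h7.2.2.2 h6
        have hrel : ∑ a', xs (b, a') * ys (Sum.inl (i₀, a')) = 0 := by
          have h8 : ∑ a', xs (b, a') * ys (Sum.inl (i₀, a')) =
              ge 𝒰 k (fun j => ∑ a', z j (Sum.inl (b, a')) * π a' (r j i₀)) := by
            simp only [xs, ys, ← map_mul, ← map_sum]
            congr 1
            funext j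
            rw [Finset.sum_apply]
            rfl
          rw [h8, ge_eq_zero]
          exact hV.mono fun j hj => hj.2.1 b i₀
        have h9 : xs (b, a) = -(∑ a' ∈ Finset.univ.erase a,
            xs (b, a') * ys (Sum.inl (i₀, a'))) * (ys (Sum.inl (i₀, a)))⁻¹ := by
          rw [eq_mul_inv_iff_mul_eq₀ hy0, eq_neg_iff_add_eq_zero]
          rw [← hrel, ← Finset.add_sum_erase _ _ (Finset.mem_univ a)]
        change xs (b, a) ∈ algField R'
        rw [h9]
        refine (algField R').mul_mem ((algField R').neg_mem ((algField R').sum_mem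
          fun a' ha' => (algField R').mul_mem
            (hmemT (b, a') (Finset.ne_of_mem_erase ha')) (hmemS _))) ((algField R').inv_mem (hmemS _))
      · exact hmemT (b, a) ha
    · change ps s ∈ algField R'
      rw [← hps s]
      exact hmemS _

variable [Infinite k] [Countable k]

/-- generic matrices are regular -/
theorem gen_det {ι : Type} (z : ℕ → ι ⊕ (Fin N × Fin N) → k)
    (hz : ∀ Ψ : MvPolynomial (ι ⊕ (Fin N × Fin N)) k, Ψ ≠ 0 →
      ∀ᶠ j in Filter.atTop, MvPolynomial.eval (z j) Ψ ≠ 0) :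
    ∀ᶠ j in Filter.atTop, (Matrix.of fun i i' : Fin N => z j (Sum.inr (i, i'))).det ≠ 0 := by
  classical
  set Ψ : MvPolynomial (ι ⊕ (Fin N × Fin N)) k :=
    (Matrix.of fun i i' : Fin N => (MvPolynomial.X (Sum.inr (i, i')) :
      MvPolynomial (ι ⊕ (Fin N × Fin N)) k)).det with hΨ
  have heval : ∀ x : ι ⊕ (Fin N × Fin N) → k, MvPolynomial.eval x Ψ =
      (Matrix.of fun i i' : Fin N => x (Sum.inr (i, i'))).det := by
    intro x
    rw [hΨ, RingHom.map_det]
    congr 1
    ext i j
    simp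
  have hne : Ψ ≠ 0 := by
    intro h0
    have h1 := heval (Sum.elim (fun _ => 0) (fun p => if p.1 = p.2 then 1 else 0))
    rw [h0, map_zero] at h1
    have h2 : (Matrix.of fun i i' : Fin N => (Sum.elim (fun _ : ι => (0 : k))
        (fun p : Fin N × Fin N => if p.1 = p.2 then 1 else 0))
          (Sum.inr (i, i') : ι ⊕ (Fin N × Fin N))) = (1 : Matrix (Fin N) (Fin N) k) := by
      ext i j
      simp only [Matrix.of_apply, Sum.elim_inr, Matrix.one_apply]
    rw [h2, Matrix.det_one] at h1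
    exact zero_ne_one h1
  refine (hz Ψ hne).mono fun j hj => ?_
  rw [heval] at hj
  exact hj

/-- **One step.** -/
theorem ext_step {𝓛 : Submodule k E} {B : (Fin N → E) → Prop} {D c : ℕ} (hB : BadSet 𝓛 B D)
    (hc : D < c + N * N) (F G : Submodule k E) [Module.Finite k F] (hF : F ≤ 𝓛) (hGF : G ≤ F)
    (hG : Free B G) : ∃ G' : Submodule k E, G ≤ G' ∧ G' ≤ F ∧ Free B G' ∧
      finrank k F ≤ finrank k G' + c := by
  classical
  set G₀ : Submodule k F := G.comap F.subtype with hG₀
  set q : ℕ := finrank k (F ⧸ G₀) with hq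
  set f := Module.finBasis k (F ⧸ G₀) with hf
  let π : Fin q → (F →ₗ[k] k) := fun a => f.coord a ∘ₗ G₀.mkQ
  have hπ : ∀ x : F, (∀ a, π a x = 0) ↔ (x : E) ∈ G := by
    intro x
    constructor
    · intro h
      have h1 : G₀.mkQ x = 0 := by
        rw [← f.repr.map_eq_zero_iff]
        ext a
        exact h a
      rw [Submodule.mkQ_apply, Submodule.Quotient.mk_eq_zero] at h1
      exact h1
    · intro h a
      have h1 : G₀.mkQ x = 0 := by
        rw [Submodule.mkQ_apply, Submodule.Quotient.mk_eq_zero]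
        exact h
      change f.coord a (G₀.mkQ x) = 0
      rw [h1, map_zero]
  by_contra hcon
  push Not at hcon
  have hbad : ∀ φ : Fin c → Fin q → k, ¬ Free B
      ((LinearMap.ker (LinearMap.pi fun b : Fin c => ∑ a, φ b a • π a)).map F.subtype) := by
    intro φ hgood
    have h1 := hcon _ ?_ (Submodule.map_subtype_le F _) hgood
    · have h2 := LinearMap.finrank_range_add_finrank_ker
        (LinearMap.pi fun b : Fin c => ∑ a, φ b a • π a : F →ₗ[k] (Fin c → k))
      have h3 : finrank k (LinearMap.range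
          (LinearMap.pi fun b : Fin c => ∑ a, φ b a • π a : F →ₗ[k] (Fin c → k))) ≤ c := by
        refine (Submodule.finrank_le _).trans ?_
        rw [finrank_fintype_fun_eq_card, Fintype.card_fin]
      have h4 : finrank k ((LinearMap.ker
          (LinearMap.pi fun b : Fin c => ∑ a, φ b a • π a : F →ₗ[k] (Fin c → k))).map F.subtype) =
          finrank k (LinearMap.ker
          (LinearMap.pi fun b : Fin c => ∑ a, φ b a • π a : F →ₗ[k] (Fin c → k))) :=
        (Submodule.equivMapOfInjective F.subtype F.subtype_injective _).finrank_eq.symm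
      omega
    · intro x hx
      refine Submodule.mem_map.2 ⟨⟨x, hGF hx⟩, ?_, rfl⟩
      rw [LinearMap.mem_ker]
      funext b
      have h2 := (hπ ⟨x, hGF hx⟩).2 hx
      simp [LinearMap.sum_apply, h2]
  obtain ⟨-, z, -, hz'⟩ := exists_generic_mem (ι := Fin 0)
    (κ := (Fin c × Fin q) ⊕ (Fin N × Fin N)) (X := Unit) Set.univ (fun _ => fun i => i.elim0)
    (k := k) (fun Ψ hΨ => ⟨(), trivial, by
      intro h0
      apply hΨ
      apply MvPolynomial.funext
      intro x
      have : x = fun i => i.elim0 := Subsingleton.elim _ _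
      rw [this, h0, map_zero]⟩)
  have hz : ∀ Ψ : MvPolynomial ((Fin c × Fin q) ⊕ (Fin N × Fin N)) k, Ψ ≠ 0 →
      ∀ᶠ j in Filter.atTop, MvPolynomial.eval (z j) Ψ ≠ 0 := by
    intro Ψ hΨ
    refine (hz' (MvPolynomial.rename Sum.inr Ψ) ?_).mono fun j hj => ?_
    · intro h0
      exact hΨ (MvPolynomial.rename_injective _ Sum.inr_injective (by rw [h0, map_zero]))
    · rw [MvPolynomial.eval_rename] at hj
      exact hj
  set 𝒰 : Ultrafilter ℕ := Ultrafilter.of atTop with h𝒰def
  have h𝒰 : (𝒰 : Filter ℕ) ≤ atTop := Ultrafilter.of_le _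
  have hdet := (gen_det z hz).filter_mono h𝒰
  have hex : ∀ᶠ j in (𝒰 : Filter ℕ), ∃ t : (Fin N → Fin (finrank k F)) × Fin N × Fin q,
      ∃ r : Fin N → F, Vio B π (fun b a => z j (Sum.inl (b, a)))
        (Matrix.of fun i i' => z j (Sum.inr (i, i'))) t.1 t.2.1 t.2.2 r := by
    refine hdet.mono fun j hj => ?_
    obtain ⟨J, i₀, k₀, r, hr⟩ := exists_vio hB hG π (fun x => (hπ x).1)
      (fun b a => z j (Sum.inl (b, a))) (hbad _)
      (Matrix.of fun i i' => z j (Sum.inr (i, i'))) hj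
    exact ⟨(J, i₀, k₀), r, hr⟩
  obtain ⟨t, ht⟩ := ultra_pigeon 𝒰 _ hex
  have hbound := generic_bound hB hF π t.1 t.2.1 t.2.2 z hz 𝒰 h𝒰 ht
  omega

end Pool.Agent.Helper71.SFE
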