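import Mathlib
import Pool.Graph.R_seed8.W245.PB.Inf
import Pool.Agent.Helper71.SFE.Ext

/-!
# Spaces of finite codimension without bad tuples
-/

set_option autoImplicit false

namespace Pool.Agent.Helper71.SFE

open Finset Module

variable {k E : Type} [Field k] [Field E] [Algebra k E] {N : ℕ} [Infinite k] [Countable k]

theorem exists_codim {𝓛 : Submodule k E} {B : (Fin N → E) → Prop} {D c : ℕ} (hB : BadSet 𝓛 B D)
    (hc : D < c + N * N) (Λ : Submodule k E) (hΛ : Λ ≤ 𝓛) (hcount : (Λ : Set E).Countable)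
    (V : Submodule k E) (hVΛ : V ≤ Λ) (hVf : Module.Finite k V) (hV : Free B V) :
    ∃ Λ' U : Submodule k E, V ≤ Λ' ∧ Λ' ⊔ U = Λ ∧ Module.Finite k U ∧
      finrank k U ≤ c ∧ Free B Λ' := by
  classical
  obtain ⟨f, hf⟩ := hcount.exists_eq_range ⟨0, Λ.zero_mem⟩
  have hfΛ : ∀ n, f n ∈ Λ := fun n => by
    have : f n ∈ (Λ : Set E) := by rw [hf]; exact ⟨n, rfl⟩
    exact this
  let F : ℕ → Submodule k E := fun i => V ⊔ Submodule.span k (f '' Set.Iio i)
  have hFf : ∀ i, Module.Finite k (F i) := by
    intro i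
    have : Module.Finite k (Submodule.span k (f '' Set.Iio i)) :=
      FiniteDimensional.span_of_finite k ((Set.finite_Iio i).image f)
    change Module.Finite k (V ⊔ Submodule.span k (f '' Set.Iio i) : Submodule k E)
    infer_instance
  have hFΛ : ∀ i, F i ≤ Λ := fun i => sup_le hVΛ (Submodule.span_le.2 (by
    rintro _ ⟨j, -, rfl⟩
    exact hfΛ j))
  have hFmono : Monotone F := fun i j hij => sup_le_sup_left
    (Submodule.span_mono (Set.image_mono (Set.Iio_subset_Iio hij))) _
  have hstep : ∀ (i : ℕ) (G : Submodule k E), ∃ G' : Submodule k E, G ≤ F i → Free B G →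
      (G ≤ G' ∧ G' ≤ F (i + 1) ∧ Free B G' ∧ finrank k (F (i + 1)) ≤ finrank k G' + c) := by
    intro i G
    by_cases h : G ≤ F i ∧ Free B G
    · have := hFf (i + 1)
      obtain ⟨G', hG'⟩ := ext_step hB hc (F (i + 1)) G ((hFΛ _).trans hΛ)
        (h.1.trans (hFmono (Nat.le_succ i))) h.2
      exact ⟨G', fun _ _ => hG'⟩
    · exact ⟨G, fun h1 h2 => absurd ⟨h1, h2⟩ h⟩
  choose g hg using hstep
  obtain ⟨G, hG0, hGs⟩ : ∃ G : ℕ → Submodule k E, G 0 = V ∧ ∀ i, G (i + 1) = g i (G i) :=
    ⟨fun i => Nat.rec V (fun i G => g i G) i, rfl, fun i => rfl⟩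
  have hGF : ∀ i, G i ≤ F i ∧ Free B (G i) ∧ finrank k (F i) ≤ finrank k (G i) + c := by
    intro i
    induction i with
    | zero =>
      rw [hG0]
      refine ⟨le_sup_left, hV, ?_⟩
      have : F 0 = V := by
        have h0 : (Set.Iio 0 : Set ℕ) = ∅ := by ext; simp
        change V ⊔ Submodule.span k (f '' Set.Iio 0) = V
        rw [h0, Set.image_empty, Submodule.span_empty, sup_bot_eq]
      rw [this]
      exact Nat.le_add_right _ _
    | succ i ih =>
      rw [hGs]
      obtain ⟨-, h2, h3, h4⟩ := hg i (G i) ih.1 ih.2.1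
      exact ⟨h2, h3, h4⟩
  have hGmono : Monotone G := monotone_nat_of_le_succ fun i => by
    rw [hGs]
    exact (hg i (G i) (hGF i).1 (hGF i).2.1).1
  set Λ' : Submodule k E := ⨆ i, G i with hΛ'
  have hGΛ' : ∀ i, G i ≤ Λ' := fun i => le_iSup G i
  have hΛ'Λ : Λ' ≤ Λ := iSup_le fun i => (hGF i).1.trans (hFΛ i)
  have hgood : Free B Λ' := by
    intro r hr
    have h1 : ∀ i, ∃ a, r i ∈ G a := fun i =>
      (Submodule.mem_iSup_of_directed G hGmono.directed_le).1 (hr i)
    choose a ha using h1
    set A := (Finset.univ : Finset (Fin N)).sup a with hA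
    exact (hGF A).2.1 r fun i => hGmono (Finset.le_sup (f := a) (Finset.mem_univ i)) (ha i)
  -- the quotient
  set Q : Submodule k (E ⧸ Λ') := Λ.map Λ'.mkQ with hQ
  have hrank : Module.rank k Q ≤ c := by
    refine rank_le fun s hs => ?_
    have hu : ∀ x : s, ∃ u : E, u ∈ Λ ∧ Λ'.mkQ u = (x : Q) := by
      intro x
      obtain ⟨u, hu, hu'⟩ := Submodule.mem_map.1 (x : Q).2
      exact ⟨u, hu, hu'⟩
    choose u huΛ hux using hu
    have hN : ∀ x : s, ∃ i, u x ∈ F i := by
      intro x
      have : u x ∈ Set.range f := by rw [← hf]; exact huΛ x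
      obtain ⟨j, hj⟩ := this
      exact ⟨j + 1, Submodule.mem_sup_right (Submodule.subset_span ⟨j, by simp, hj⟩)⟩
    choose ν hν using hN
    set A := (Finset.univ : Finset s).sup ν with hNdef
    have huF : ∀ x : s, u x ∈ F A := fun x => hFmono (Finset.le_sup (f := ν) (Finset.mem_univ x)) (hν x)
    have hliQ : LinearIndependent k (fun x : s => Λ'.mkQ (u x)) := by
      have h1 : LinearIndependent k (fun x : s => Q.subtype (x : Q)) :=
        hs.map' Q.subtype (Submodule.ker_subtype Q)
      have h2 : (fun x : s => Λ'.mkQ (u x)) = fun x : s => Q.subtype (x : Q) := funext hux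
      rw [h2]
      exact h1
    have hli : LinearIndependent k u := LinearIndependent.of_comp Λ'.mkQ hliQ
    have hdis : G A ⊓ Submodule.span k (Set.range u) = ⊥ := by
      rw [Submodule.eq_bot_iff]
      rintro x ⟨hx1, hx2⟩
      obtain ⟨a, ha⟩ := (Submodule.mem_span_range_iff_exists_fun k).1 hx2
      have h2 : ∑ i, a i • Λ'.mkQ (u i) = 0 := by
        simp only [← map_smul, ← map_sum]
        rw [ha, Submodule.mkQ_apply, Submodule.Quotient.mk_eq_zero]
        exact hGΛ' A hx1
      have h3 := Fintype.linearIndependent_iff.1 hliQ a h2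
      rw [← ha]
      exact Finset.sum_eq_zero fun i _ => by rw [h3 i, zero_smul]
    have hfinG : Module.Finite k (G A) := by
      have := hFf A
      exact Submodule.finiteDimensional_of_le (hGF A).1
    have hfinU : Module.Finite k (Submodule.span k (Set.range u)) :=
      FiniteDimensional.span_of_finite k (Set.finite_range u)
    have h4 := Submodule.finrank_sup_add_finrank_inf_eq (G A) (Submodule.span k (Set.range u))
    rw [hdis, finrank_bot, add_zero, finrank_span_eq_card hli, Fintype.card_coe] at h4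
    have h5 : finrank k (G A ⊔ Submodule.span k (Set.range u) : Submodule k E) ≤
        finrank k (F A) := by
      have := hFf A
      refine Submodule.finrank_mono (sup_le (hGF A).1 (Submodule.span_le.2 ?_))
      rintro _ ⟨x, rfl⟩
      exact huF x
    have h6 := (hGF A).2.2
    omega
  have hQfin : Module.Finite k Q :=
    Module.rank_lt_aleph0_iff.1 (lt_of_le_of_lt hrank Cardinal.natCast_lt_aleph0)
  have hQc : finrank k Q ≤ c := by
    exact finrank_le_of_rank_le hrank
  set b := Module.finBasis k Q with hb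
  have hw' : ∀ i, ∃ u : E, u ∈ Λ ∧ Λ'.mkQ u = (b i : Q) := by
    intro i
    obtain ⟨u, hu, hu'⟩ := Submodule.mem_map.1 (b i).2
    exact ⟨u, hu, hu'⟩
  choose u huΛ hub using hw'
  refine ⟨Λ', Submodule.span k (Set.range u), ?_, ?_, FiniteDimensional.span_of_finite k (Set.finite_range u), ?_, hgood⟩
  · rw [← hG0]
    exact hGΛ' 0
  · apply le_antisymm
    · refine sup_le hΛ'Λ (Submodule.span_le.2 ?_)
      rintro _ ⟨i, rfl⟩
      exact huΛ i
    · intro x hx
      have h1 : Λ'.mkQ x ∈ Q := Submodule.mem_map_of_mem hx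
      have h2 := congrArg Q.subtype (b.sum_repr ⟨Λ'.mkQ x, h1⟩)
      rw [map_sum] at h2
      simp only [map_smul, Submodule.subtype_apply, ← hub] at h2
      simp only [← map_smul, ← map_sum] at h2
      have h3 : x - ∑ i, (b.repr ⟨Λ'.mkQ x, h1⟩ i) • u i ∈ Λ' := by
        rw [← Submodule.Quotient.mk_eq_zero, ← Submodule.mkQ_apply, map_sub, h2, sub_self]
      rw [← sub_add_cancel x (∑ i, (b.repr ⟨Λ'.mkQ x, h1⟩ i) • u i)]
      exact Submodule.add_mem_sup h3 (Submodule.sum_mem _ fun i _ =>
        Submodule.smul_mem _ _ (Submodule.subset_span ⟨i, rfl⟩))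
  · refine (finrank_range_le_card u).trans ?_
    rw [Fintype.card_fin]
    exact hQc

omit [Infinite k] in
/-- spans of countable sets are countable -/
theorem countable_span (S : Set E) (hS : S.Countable) :
    ((Submodule.span k S : Submodule k E) : Set E).Countable := by
  rcases S.eq_empty_or_nonempty with h | h
  · rw [h, Submodule.span_empty]
    exact Set.countable_singleton 0
  · obtain ⟨f, rfl⟩ := hS.exists_eq_range h
    have h1 : ((Submodule.span k (Set.range f) : Submodule k E) : Set E) ⊆
        Set.range (Finsupp.linearCombination k f) := by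
      intro x hx
      rw [SetLike.mem_coe, Finsupp.mem_span_range_iff_exists_finsupp] at hx
      obtain ⟨c, hc⟩ := hx
      exact ⟨c, hc⟩
    exact (Set.countable_range _).mono h1

end Pool.Agent.Helper71.SFE
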