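import Mathlib
import Pool.Graph.R_seed8.R350.GW
import Pool.Agent.Helper71.SFE.Chain

/-!
# The rows of the counterexamples to the strong four exponentials conjecture
-/

set_option autoImplicit false

namespace Pool.Agent.Helper71.SFE

open Finset Module
open Pool.Agent.Y787 (QC mem_QC HypC)
open Pool.Agent.Y787.FE (Ctr)
open Pool.Agent.R350 (BadRow row_dim)

variable {Cc : Type} [Field Cc] [CharZero Cc] {Lt : Submodule (QC Cc) Cc}

/-- operations on the columns -/
theorem ctr_col {x y w z : Cc} (h : Ctr x y w z) (a b c d : QC Cc) (hdet : a * d - b * c ≠ 0) :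
    Ctr ((a : Cc) * x + b * y) (c * x + d * y) (a * w + b * z) (c * w + d * z) := by
  obtain ⟨h1, h2, h3⟩ := h
  have hdet' : (a : Cc) * d - b * c ≠ 0 := by
    intro h0
    apply hdet
    have : ((a * d - b * c : QC Cc) : Cc) = 0 := by push_cast; exact h0
    exact_mod_cast this
  refine ⟨?_, ?_, ?_⟩
  · linear_combination ((a : Cc) * d - b * c) * h1
  · intro s t e1 e2
    refine h2 s t ?_ ?_
    · apply mul_left_cancel₀ hdet'
      rw [mul_zero]
      linear_combination (d : Cc) * e1 - b * e2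
    · apply mul_left_cancel₀ hdet'
      rw [mul_zero]
      linear_combination (a : Cc) * e2 - c * e1
  · intro s t e1 e2
    obtain ⟨e3, e4⟩ := h3 (s * a + t * c) (s * b + t * d)
      (by push_cast; linear_combination e1) (by push_cast; linear_combination e2)
    have e5 : (a * d - b * c) * s = 0 := by linear_combination d * e3 - c * e4
    have e6 : (a * d - b * c) * t = 0 := by linear_combination a * e4 - b * e3
    exact ⟨(mul_eq_zero.1 e5).resolve_left hdet, (mul_eq_zero.1 e6).resolve_left hdet⟩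

theorem badRow_act {r : Fin 2 → Cc} (hr : BadRow Lt (r 0) (r 1))
    (h : Matrix (Fin 2) (Fin 2) (QC Cc)) (hh : h.det ≠ 0) :
    BadRow Lt (∑ j, h 0 j • r j) (∑ j, h 1 j • r j) := by
  obtain ⟨w, hw, z, hz, hc⟩ := hr
  rw [Matrix.det_fin_two] at hh
  have hsm : ∀ (a : QC Cc) (v : Cc), a • v = (a : Cc) * v := fun a v => by
    rw [Algebra.smul_def]; rfl
  refine ⟨h 0 0 • w + h 0 1 • z, Lt.add_mem (Lt.smul_mem _ hw) (Lt.smul_mem _ hz),
    h 1 0 • w + h 1 1 • z, Lt.add_mem (Lt.smul_mem _ hw) (Lt.smul_mem _ hz), ?_⟩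
  rw [Fin.sum_univ_two, Fin.sum_univ_two]
  simp only [hsm]
  exact ctr_col hc _ _ _ _ hh

theorem ctr_first {x y w z : Cc} (h : Ctr x y w z) (s t : QC Cc)
    (e : (s : Cc) * x + t * y = 0) : s = 0 ∧ t = 0 := by
  obtain ⟨h1, h2, h3⟩ := h
  by_cases hx : x = 0
  · by_cases hy : y = 0
    · exfalso
      have := h2 1 0 (by rw [hx]; simp) (by rw [hy]; simp)
      exact one_ne_zero this.1
    · -- x = 0, y ≠ 0 : then w = 0
      have hw : w = 0 := by
        rw [hx, zero_mul] at h1
        exact (mul_eq_zero.1 h1.symm).resolve_left hy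
      exfalso
      have := h3 1 0 (by rw [hx]; simp) (by rw [hw]; simp)
      exact one_ne_zero this.1
  · refine h3 s t e ?_
    apply mul_left_cancel₀ hx
    rw [mul_zero]
    linear_combination w * e + (t : Cc) * h1

theorem badRow_indep {r : Fin 2 → Cc} (hr : BadRow Lt (r 0) (r 1)) :
    LinearIndependent (QC Cc) r := by
  obtain ⟨w, hw, z, hz, hc⟩ := hr
  have h1 : r = ![r 0, r 1] := by
    funext i
    fin_cases i <;> rfl
  rw [h1, LinearIndependent.pair_iff]
  intro s t e
  have hsm : ∀ (a : QC Cc) (v : Cc), a • v = (a : Cc) * v := fun a v => by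
    rw [Algebra.smul_def]; rfl
  rw [hsm, hsm] at e
  exact ctr_first hc s t e

/-- a singular matrix with independent rows and columns -/
def Cex (Lt : Submodule (QC Cc) Cc) (M : Matrix (Fin 2) (Fin 2) Cc) : Prop :=
  (∀ i j, M i j ∈ Lt) ∧
    LinearIndependent (QC Cc) (fun i : Fin 2 => fun j : Fin 2 => M i j) ∧
    LinearIndependent (QC Cc) (fun j : Fin 2 => fun i : Fin 2 => M i j) ∧ M.det = 0

theorem Cex.transpose {M : Matrix (Fin 2) (Fin 2) Cc} (hM : Cex Lt M) : Cex Lt M.transpose :=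
  ⟨fun i j => hM.1 j i, hM.2.2.1, hM.2.1, by rw [Matrix.det_transpose]; exact hM.2.2.2⟩

theorem Cex.badRow {M : Matrix (Fin 2) (Fin 2) Cc} (hM : Cex Lt M) (a : Fin 2 → QC Cc)
    (ha : a ≠ 0) : BadRow Lt (∑ i, a i • M i 0) (∑ i, a i • M i 1) := by
  obtain ⟨h1, h2, h3, h4⟩ := hM
  rw [Matrix.det_fin_two] at h4
  have hsm : ∀ (a : QC Cc) (v : Cc), a • v = (a : Cc) * v := fun a v => by
    rw [Algebra.smul_def]; rfl
  -- the matrix itself
  have hrow : ∀ s t : QC Cc, (s : Cc) * M 0 0 + t * M 1 0 = 0 → (s : Cc) * M 0 1 + t * M 1 1 = 0 →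
      s = 0 ∧ t = 0 := by
    intro s t h h'
    have h5 := Fintype.linearIndependent_iff.1 h2 ![s, t] (by
      funext j
      rw [Fin.sum_univ_two, Pi.add_apply, Pi.smul_apply, Pi.smul_apply, hsm, hsm]
      fin_cases j
      · exact h
      · exact h')
    exact ⟨by simpa using h5 0, by simpa using h5 1⟩
  have hcol : ∀ s t : QC Cc, (s : Cc) * M 0 0 + t * M 0 1 = 0 → (s : Cc) * M 1 0 + t * M 1 1 = 0 →
      s = 0 ∧ t = 0 := by
    intro s t h h'
    have h5 := Fintype.linearIndependent_iff.1 h3 ![s, t] (by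
      funext j
      rw [Fin.sum_univ_two, Pi.add_apply, Pi.smul_apply, Pi.smul_apply, hsm, hsm]
      fin_cases j
      · exact h
      · exact h')
    exact ⟨by simpa using h5 0, by simpa using h5 1⟩
  -- the second combination
  obtain ⟨b, hb⟩ : ∃ b : Fin 2 → QC Cc, a 0 * b 1 - a 1 * b 0 ≠ 0 := by
    by_cases ha0 : a 0 = 0
    · refine ⟨![1, 0], ?_⟩
      have ha1 : a 1 ≠ 0 := by
        intro h
        apply ha
        funext i
        fin_cases i
        · exact ha0
        · exact h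
      simpa using ha1
    · refine ⟨![0, 1], ?_⟩
      simpa using ha0
  have hb' : (a 0 : Cc) * b 1 - a 1 * b 0 ≠ 0 := by
    intro h0
    apply hb
    have : ((a 0 * b 1 - a 1 * b 0 : QC Cc) : Cc) = 0 := by push_cast; exact h0
    exact_mod_cast this
  refine ⟨∑ i, b i • M i 0, Submodule.sum_mem _ fun i _ => Submodule.smul_mem _ _ (h1 i 0),
    ∑ i, b i • M i 1, Submodule.sum_mem _ fun i _ => Submodule.smul_mem _ _ (h1 i 1), ?_⟩
  simp only [Fin.sum_univ_two, hsm]
  refine ⟨?_, ?_, ?_⟩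
  · linear_combination ((a 0 : Cc) * b 1 - a 1 * b 0) * h4
  · intro s t e1 e2
    obtain ⟨e3, e4⟩ := hrow (s * a 0 + t * b 0) (s * a 1 + t * b 1)
      (by push_cast; linear_combination e1) (by push_cast; linear_combination e2)
    have e5 : (a 0 * b 1 - a 1 * b 0) * s = 0 := by linear_combination b 1 * e3 - b 0 * e4
    have e6 : (a 0 * b 1 - a 1 * b 0) * t = 0 := by linear_combination a 0 * e4 - a 1 * e3
    exact ⟨(mul_eq_zero.1 e5).resolve_left hb, (mul_eq_zero.1 e6).resolve_left hb⟩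
  · intro s t e1 e2
    refine hcol s t ?_ ?_
    · apply mul_left_cancel₀ hb'
      rw [mul_zero]
      linear_combination (b 1 : Cc) * e1 - a 1 * e2
    · apply mul_left_cancel₀ hb'
      rw [mul_zero]
      linear_combination (a 0 : Cc) * e2 - b 0 * e1

theorem BadRow.cex {r : Fin 2 → Cc} (hr : BadRow Lt (r 0) (r 1)) (hrL : ∀ i, r i ∈ Lt) :
    ∃ M : Matrix (Fin 2) (Fin 2) Cc, Cex Lt M ∧ ∀ j, M 0 j = r j := by
  obtain ⟨w, hw, z, hz, hc⟩ := hr
  have hsm : ∀ (a : QC Cc) (v : Cc), a • v = (a : Cc) * v := fun a v => by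
    rw [Algebra.smul_def]; rfl
  refine ⟨!![r 0, r 1; w, z], ⟨?_, ?_, ?_, ?_⟩, ?_⟩
  · intro i j
    fin_cases i <;> fin_cases j
    · exact hrL 0
    · exact hrL 1
    · exact hw
    · exact hz
  · rw [Fintype.linearIndependent_iff]
    intro g hg
    rw [Fin.sum_univ_two] at hg
    have e1 := congrFun hg 0
    have e2 := congrFun hg 1
    simp only [Pi.add_apply, Pi.smul_apply, hsm, Matrix.of_apply, Matrix.cons_val',
      Matrix.cons_val_zero, Matrix.cons_val_one, Matrix.cons_val_fin_one, Pi.zero_apply] at e1 e2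
    obtain ⟨h1, h2⟩ := hc.2.1 _ _ e1 e2
    intro i
    fin_cases i
    · exact h1
    · exact h2
  · rw [Fintype.linearIndependent_iff]
    intro g hg
    rw [Fin.sum_univ_two] at hg
    have e1 := congrFun hg 0
    have e2 := congrFun hg 1
    simp only [Pi.add_apply, Pi.smul_apply, hsm, Matrix.of_apply, Matrix.cons_val',
      Matrix.cons_val_zero, Matrix.cons_val_one, Matrix.cons_val_fin_one, Pi.zero_apply] at e1 e2
    obtain ⟨h1, h2⟩ := hc.2.2 _ _ e1 e2
    intro i
    fin_cases i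
    · exact h1
    · exact h2
  · rw [Matrix.det_fin_two]
    simp only [Matrix.of_apply, Matrix.cons_val', Matrix.cons_val_zero, Matrix.cons_val_one,
      Matrix.cons_val_fin_one]
    linear_combination hc.1
  · intro j
    fin_cases j <;> rfl

/-- some nontrivial combination of the rows, or of the columns, is in `V` -/
def LineIn (V : Submodule (QC Cc) Cc) (M : Matrix (Fin 2) (Fin 2) Cc) : Prop :=
  ∃ a : Fin 2 → QC Cc, a ≠ 0 ∧ ((∀ j, ∑ i, a i • M i j ∈ V) ∨ ∀ i, ∑ j, a j • M i j ∈ V)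

theorem free_iff {V : Submodule (QC Cc) Cc} (hV : V ≤ Lt) :
    Free (fun r : Fin 2 → Cc => BadRow Lt (r 0) (r 1)) V ↔
      ∀ M : Matrix (Fin 2) (Fin 2) Cc, LineIn V M → ¬ Cex Lt M := by
  constructor
  · rintro h M ⟨a, ha, h1 | h1⟩ hM
    · refine h ![∑ i, a i • M i 0, ∑ i, a i • M i 1] ?_ (hM.badRow a ha)
      intro j
      fin_cases j
      · exact h1 0
      · exact h1 1
    · refine h ![∑ i, a i • M 0 i, ∑ i, a i • M 1 i] ?_ (hM.transpose.badRow a ha)
      intro j
      fin_cases j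
      · exact h1 0
      · exact h1 1
  · intro h r hr hB
    obtain ⟨M, hM, hMr⟩ := BadRow.cex hB fun i => hV (hr i)
    refine h M ⟨![1, 0], ?_, Or.inl fun j => ?_⟩ hM
    · intro h0
      have := congrFun h0 0
      simp at this
    · rw [Fin.sum_univ_two]
      simp only [Matrix.cons_val_zero, Matrix.cons_val_one, one_smul, zero_smul, add_zero]
      rw [hMr]
      exact hr j

variable [IsAlgClosed Cc] [HypC Lt]

theorem badSet_rows : BadSet Lt (fun r : Fin 2 → Cc => BadRow Lt (r 0) (r 1)) 10 where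
  indep := fun _ hr => badRow_indep hr
  act := fun _ hr h hh => badRow_act hr h hh
  dim := fun F _ hF φ => row_dim F hF φ

instance countable_QC : Countable (QC Cc) := by
  have h1 : Set.Countable {x : Cc | IsAlgebraic ℚ x} := Algebraic.countable ℚ Cc
  have h2 : ((QC Cc : IntermediateField ℚ Cc) : Set Cc) ⊆ {x : Cc | IsAlgebraic ℚ x} :=
    fun x hx => mem_QC.1 hx
  exact (h1.mono h2).to_subtype

/-- **Finite codimension.** -/
theorem rows_codim (hcount : (Lt : Set Cc).Countable) (V : Submodule (QC Cc) Cc) (hV : V ≤ Lt)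
    (hVf : Module.Finite (QC Cc) V)
    (hg : ∀ M : Matrix (Fin 2) (Fin 2) Cc, LineIn V M → ¬ Cex Lt M) :
    ∃ Λ U : Submodule (QC Cc) Cc, V ≤ Λ ∧ Λ ⊔ U = Lt ∧ Module.Finite (QC Cc) U ∧
      finrank (QC Cc) U ≤ 7 ∧ ∀ M : Matrix (Fin 2) (Fin 2) Cc, LineIn Λ M → ¬ Cex Lt M := by
  obtain ⟨Λ, U, h1, h2, h3, h4, h5⟩ := exists_codim (c := 7) (badSet_rows (Lt := Lt))
    (by norm_num) Lt le_rfl hcount V hV hVf ((free_iff hV).2 hg)
  exact ⟨Λ, U, h1, h2, h3, h4, (free_iff (by rw [← h2]; exact le_sup_left)).1 h5⟩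

end Pool.Agent.Helper71.SFE
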