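import Mathlib
import Pool.Graph.R_seed8.Y787.HS.SgF
import Pool.Agent.Helper71.SFE.Ext

/-!
# Generic subspaces of finite dimensional spaces
-/

set_option autoImplicit false

namespace Pool.Agent.Helper71.SFE

open Finset Module Filter
open Pool.Agent.Y787.AS (GE ge ge_eq ge_eq_zero)

variable {k E : Type} [Field k] [Field E] [Algebra k E]

/-- the elements with the coordinates `x` -/
noncomputable def pt {R n : ℕ} (l : Fin R → E) (x : Fin n × Fin R → k) (a : Fin n) : E :=
  ∑ j, x (a, j) • l j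

/-- A property of the coordinates of `s` elements of the space spanned by `R` elements; the sets
of the tuples of coordinates have dimension at most `D`. -/
def DimLe {s R : ℕ} (C : (Fin s × Fin R → k) → Prop) (D : ℕ) : Prop :=
  ∀ φ : Fin (D + 1) → ((Fin s × Fin R → k) →ₗ[k] k),
    ∃ P : MvPolynomial (Fin (D + 1)) k, P ≠ 0 ∧ ∀ b, C b →
      MvPolynomial.eval (fun i => φ i b) P = 0

/-- the set of the coordinates of the tuples which can be transformed in a tuple of `C` with a
matrix of the form `(1, c)` -/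
def Red {n s R : ℕ} (C : (Fin s × Fin R → k) → Prop) (e : Fin s → Fin n)
    (x : Fin n × Fin R → k) : Prop :=
  ∃ c : Matrix (Fin s) (Fin n) k, (∀ i i', c i (e i') = if i = i' then 1 else 0) ∧
    C (fun q => ∑ a, c q.1 a * x (a, q.2))

/-- **The generic tuple.** -/
theorem red_bound {n s R D D' : ℕ} (C : (Fin s × Fin R → k) → Prop) (hC : DimLe C D)
    (e : Fin s → Fin n) (he : Function.Injective e)
    (φ : Fin D' → ((Fin n × Fin R → k) →ₗ[k] k))
    (X : ℕ → Fin n × Fin R → k)
    (hz : ∀ Ψ : MvPolynomial (Fin D') k, Ψ ≠ 0 →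
      ∀ᶠ j in Filter.atTop, MvPolynomial.eval (fun i => φ i (X j)) Ψ ≠ 0)
    (𝒰 : Ultrafilter ℕ) (h𝒰 : (𝒰 : Filter ℕ) ≤ atTop)
    (h : ∀ᶠ j in (𝒰 : Filter ℕ), Red C e (X j)) :
    D' ≤ D + (s * (n - s) + (n - s) * R) := by
  classical
  letI algK := algKG k 𝒰
  -- the choice
  let V : ℕ → Matrix (Fin s) (Fin n) k → Prop := fun j c =>
    (∀ i i', c i (e i') = if i = i' then 1 else 0) ∧
        C (fun q => ∑ a, c q.1 a * X j (a, q.2))
  have hch : ∀ j, ∃ c : Matrix (Fin s) (Fin n) k, (∃ c, V j c) → V j c := by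
    intro j
    by_cases hj : ∃ c, V j c
    · obtain ⟨c, hA⟩ := hj
      exact ⟨c, fun _ => hA⟩
    · exact ⟨0, fun h => absurd h hj⟩
  choose c hc using hch
  have hV : ∀ᶠ j in (𝒰 : Filter ℕ), V j (c j) := h.mono fun j hj => hc j hj
  -- the germs
  let xs : Fin n × Fin R → GE 𝒰 k := fun q => ge 𝒰 k (fun j => X j q)
  let fs : Fin D' → GE 𝒰 k := fun i => ge 𝒰 k (fun j => φ i (X j))
  let cs : Fin s × Fin n → GE 𝒰 k := fun q => ge 𝒰 k (fun j => c j q.1 q.2)
  let bs : Fin s × Fin R → GE 𝒰 k := fun q =>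
    ge 𝒰 k (fun j => ∑ a, c j q.1 a * X j (a, q.2))
  have hbs : ∀ i s', bs (i, s') = ∑ a, cs (i, a) * xs (a, s') := by
    intro i s'
    have h1 : ∑ a, cs (i, a) * xs (a, s') = ge 𝒰 k (fun j => ∑ a, c j i a * X j (a, s')) := by
      simp only [cs, xs, ← map_mul, ← map_sum]
      congr 1
      funext j
      rw [Finset.sum_apply]
      rfl
    rw [h1]
  have hcs : ∀ i i', cs (i, e i') = if i = i' then 1 else 0 := by
    intro i i'
    have h1 : ge 𝒰 k (fun _ => if i = i' then (1 : k) else 0) = if i = i' then 1 else 0 := by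
      split_ifs
      · exact map_one _
      · exact map_zero _
    rw [← h1, ge_eq]
    exact hV.mono fun j hj => hj.1 i i'
  -- independence
  have hind : AlgebraicIndependent k fs := germ_indep 𝒰 h𝒰 (fun j i => φ i (X j)) hz
  set Z : Set (GE 𝒰 k) := Set.range fs with hZdef
  have hZcard : Z.encard = (D' : ℕ) := by
    have h2 : Function.Injective fs := hind.injective
    rw [hZdef, ← Set.image_univ, h2.encard_image, Set.encard_univ, ENat.card_eq_coe_fintype_card]
    simp
  set S : Set (GE 𝒰 k) := Set.range bs with hSdef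
  set T : Set (GE 𝒰 k) := (fun q => cs q) '' {q : Fin s × Fin n | q.2 ∉ Set.range e} ∪
    (fun q => xs q) '' {q : Fin n × Fin R | q.1 ∉ Set.range e} with hTdef
  have hcompl : ((Finset.univ.image e)ᶜ : Finset (Fin n)).card = n - s := by
    rw [Finset.card_compl, Finset.card_image_of_injective _ he]
    simp
  have hTcard : T.encard ≤ (s * (n - s) + (n - s) * R : ℕ) := by
    refine (Set.encard_union_le _ _).trans ?_
    have h2 : ((fun q => cs q) '' {q : Fin s × Fin n | q.2 ∉ Set.range e}).encard ≤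
        (s * (n - s) : ℕ) := by
      refine (Set.encard_image_le _ _).trans ?_
      have h4 : {q : Fin s × Fin n | q.2 ∉ Set.range e} =
          ((Finset.univ : Finset (Fin s)) ×ˢ (Finset.univ.image e)ᶜ :
            Finset (Fin s × Fin n)) := by
        ext q
        simp
      rw [h4, Set.encard_coe_eq_coe_finsetCard, Finset.card_product, hcompl]
      simp
    have h3 : ((fun q => xs q) '' {q : Fin n × Fin R | q.1 ∉ Set.range e}).encard ≤
        ((n - s) * R : ℕ) := by
      refine (Set.encard_image_le _ _).trans ?_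
      have h4 : {q : Fin n × Fin R | q.1 ∉ Set.range e} =
          ((Finset.univ.image e)ᶜ ×ˢ (Finset.univ : Finset (Fin R)) :
            Finset (Fin n × Fin R)) := by
        ext q
        simp
      rw [h4, Set.encard_coe_eq_coe_finsetCard, Finset.card_product, hcompl]
      simp
    calc ((fun q => cs q) '' {q : Fin s × Fin n | q.2 ∉ Set.range e}).encard +
        ((fun q => xs q) '' {q : Fin n × Fin R | q.1 ∉ Set.range e}).encard
        ≤ (s * (n - s) : ℕ) + ((n - s) * R : ℕ) := add_le_add h2 h3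
      _ = (s * (n - s) + (n - s) * R : ℕ) := by push_cast; rfl
  have hmain := trdeg_bound S T Z D (s * (n - s) + (n - s) * R) ?_ hTcard
    hind.to_subtype_range ?_
  · rw [hZcard] at hmain
    exact_mod_cast hmain
  · -- many elements are dependent
    intro u hu
    choose r hr using hu
    obtain ⟨Ψ, hΨ, hΨ0⟩ := hC
      (fun i => LinearMap.proj (R := k) (φ := fun _ : Fin s × Fin R => k) (r i))
    have h7 : ∀ j, V j (c j) →
        MvPolynomial.eval (fun i => ∑ a, c j (r i).1 a * X j (a, (r i).2)) Ψ = 0 := by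
      intro j hj
      have h8 := hΨ0 _ hj.2
      simp only [LinearMap.proj_apply] at h8
      exact h8
    have h5 : u = fun i => ge 𝒰 k (fun j =>
        (fun i => ∑ a, c j (r i).1 a * X j (a, (r i).2)) i) := by
      funext i
      exact (hr i).symm
    rw [h5]
    exact germ_dep 𝒰 (fun j i => ∑ a, c j (r i).1 a * X j (a, (r i).2)) Ψ hΨ
      (hV.mono h7)
  · -- everything is algebraic
    set R' := Algebra.adjoin k (S ∪ T) with hR'
    have hmemS : ∀ r, bs r ∈ algField R' := fun r =>
      isAlgebraic_algebraMap (⟨bs r, Algebra.subset_adjoin (Or.inl ⟨r, rfl⟩)⟩ : R')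
    have hmemC : ∀ q : Fin s × Fin n, q.2 ∉ Set.range e → cs q ∈ algField R' := fun q hq =>
      isAlgebraic_algebraMap
        (⟨cs q, Algebra.subset_adjoin (Or.inr (Or.inl ⟨q, hq, rfl⟩))⟩ : R')
    have hmemX : ∀ q : Fin n × Fin R, q.1 ∉ Set.range e → xs q ∈ algField R' := fun q hq =>
      isAlgebraic_algebraMap
        (⟨xs q, Algebra.subset_adjoin (Or.inr (Or.inr ⟨q, hq, rfl⟩))⟩ : R')
    have hmemX' : ∀ q : Fin n × Fin R, xs q ∈ algField R' := by
      rintro ⟨a, s'⟩
      by_cases hk : a ∈ Set.range e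
      · obtain ⟨i', rfl⟩ := hk
        have h1 : xs (e i', s') = bs (i', s') -
            ∑ a ∈ (Finset.univ.image e)ᶜ, cs (i', a) * xs (a, s') := by
          rw [hbs, eq_sub_iff_add_eq,
            ← Finset.sum_add_sum_compl (Finset.univ.image e) (fun a => cs (i', a) * xs (a, s')),
            Finset.sum_image (fun a _ b _ h => he h)]
          congr 1
          rw [Finset.sum_eq_single i']
          · rw [hcs, if_pos rfl, one_mul]
          · intro a _ ha
            rw [hcs, if_neg (Ne.symm ha), zero_mul]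
          · intro ha
            exact absurd (Finset.mem_univ _) ha
        rw [h1]
        refine (algField R').sub_mem (hmemS _) ((algField R').sum_mem fun a hk => ?_)
        have hk' : a ∉ Set.range e := by
          rintro ⟨a', ha⟩
          rw [Finset.mem_compl] at hk
          exact hk (Finset.mem_image.2 ⟨a', Finset.mem_univ _, ha⟩)
        exact (algField R').mul_mem (hmemC _ hk') (hmemX _ hk')
      · exact hmemX _ hk
    rintro _ ⟨i, rfl⟩
    change fs i ∈ algField R'
    have h6 : fs i = ∑ q, algebraMap k (GE 𝒰 k) (φ i (Pi.single q 1)) * xs q := by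
      have h7 : ∀ q, algebraMap k (GE 𝒰 k) (φ i (Pi.single q 1)) =
          ge 𝒰 k (fun _ => φ i (Pi.single q 1)) := fun q => rfl
      simp only [h7, fs, xs, ← map_mul, ← map_sum]
      congr 1
      funext j
      rw [Finset.sum_apply]
      have h8 : X j = ∑ q, X j q • (Pi.single q (1 : k) : Fin n × Fin R → k) := by
        funext q
        simp [Finset.sum_apply, Pi.single_apply]
      conv_lhs => rw [h8, map_sum]
      refine Finset.sum_congr rfl fun q _ => ?_
      rw [map_smul, smul_eq_mul, mul_comm]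
      rfl
    rw [h6]
    refine (algField R').sum_mem fun q _ => (algField R').mul_mem ?_ (hmemX' q)
    have h9 : algebraMap k (GE 𝒰 k) (φ i (Pi.single q 1)) =
        algebraMap R' (GE 𝒰 k) (algebraMap k R' (φ i (Pi.single q 1))) := rfl
    rw [h9]
    exact isAlgebraic_algebraMap _

variable [Infinite k] [Countable k]

/-- **Dimension of sets of tuples.** `T` is a finite set of types of reductions. -/
theorem red_dim {n R d : ℕ} {T : Type} [Finite T] (s : T → ℕ) (D : T → ℕ)
    (e : ∀ t, Fin (s t) → Fin n) (he : ∀ t, Function.Injective (e t))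
    (C : ∀ t, (Fin (s t) × Fin R → k) → Prop) (hC : ∀ t, DimLe (C t) (D t))
    (hd : ∀ t, D t + (s t * (n - s t) + (n - s t) * R) ≤ d)
    (S : Set (Fin n × Fin R → k)) (hS : ∀ x ∈ S, ∃ t, Red (C t) (e t) x)
    (φ : Fin (d + 1) → ((Fin n × Fin R → k) →ₗ[k] k)) :
    ∃ Ψ : MvPolynomial (Fin (d + 1)) k, Ψ ≠ 0 ∧ ∀ x ∈ S,
        MvPolynomial.eval (fun i => φ i x) Ψ = 0 := by
  classical
  by_contra hcon
  push Not at hcon
  obtain ⟨X, p, hX, hgen'⟩ := exists_generic_mem (κ := Fin 0) S
    (fun x i => φ i x) (fun Ψ hΨ => by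
      obtain ⟨x, hx, hx'⟩ := hcon Ψ hΨ
      exact ⟨x, hx, hx'⟩)
  have hgen : ∀ Ψ : MvPolynomial (Fin (d + 1)) k, Ψ ≠ 0 →
      ∀ᶠ j in Filter.atTop, MvPolynomial.eval (fun i => φ i (X j)) Ψ ≠ 0 := by
    intro Ψ hΨ
    refine (hgen' (MvPolynomial.rename Sum.inl Ψ) ?_).mono fun j hj => ?_
    · intro h0
      exact hΨ (MvPolynomial.rename_injective _ Sum.inl_injective (by rw [h0, map_zero]))
    · rw [MvPolynomial.eval_rename] at hj
      exact hj
  set 𝒰 : Ultrafilter ℕ := Ultrafilter.of atTop with h𝒰def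
  have h𝒰 : (𝒰 : Filter ℕ) ≤ atTop := Ultrafilter.of_le _
  obtain ⟨t, ht⟩ := ultra_pigeon 𝒰 (fun t j => Red (C t) (e t) (X j))
    (Filter.Eventually.of_forall fun j => hS _ (hX j))
  have hbound := red_bound (C t) (hC t) (e t) (he t) φ X hgen 𝒰 h𝒰 ht
  have := hd t
  omega

/-- **The exceptional hypersurface.** -/
theorem hyp_of_dim {n R d : ℕ} (hd : d < n * R) (S : Set (Fin n × Fin R → k))
    (h : ∀ φ : Fin (d + 1) → ((Fin n × Fin R → k) →ₗ[k] k),
      ∃ Ψ : MvPolynomial (Fin (d + 1)) k, Ψ ≠ 0 ∧ ∀ x ∈ S,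
        MvPolynomial.eval (fun i => φ i x) Ψ = 0) :
    ∃ Ψ : MvPolynomial (Fin n × Fin R) k, Ψ ≠ 0 ∧ ∀ x ∈ S, MvPolynomial.eval x Ψ = 0 := by
  classical
  have hcard : d + 1 ≤ Fintype.card (Fin n × Fin R) := by
    rw [Fintype.card_prod, Fintype.card_fin, Fintype.card_fin]
    omega
  set e : Fin (d + 1) → Fin n × Fin R := fun i =>
    (Fintype.equivFin (Fin n × Fin R)).symm (Fin.castLE hcard i) with he
  have hinj : Function.Injective e := fun a b h =>
    Fin.castLE_injective _ ((Fintype.equivFin (Fin n × Fin R)).symm.injective h)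
  obtain ⟨Ψ, hΨ, hΨ0⟩ := h
    (fun i => LinearMap.proj (R := k) (φ := fun _ : Fin n × Fin R => k) (e i))
  refine ⟨MvPolynomial.rename e Ψ, ?_, fun x hx => ?_⟩
  · intro h0
    apply hΨ
    exact (MvPolynomial.rename_injective _ hinj) (by rw [h0, map_zero])
  · rw [MvPolynomial.eval_rename]
    exact hΨ0 x hx

/-- **Counting.** -/
theorem count_of_dim [CharZero k] {n R d : ℕ} (S : Set (Fin n × Fin R → k))
    (h : ∀ φ : Fin (d + 1) → ((Fin n × Fin R → k) →ₗ[k] k),
      ∃ Ψ : MvPolynomial (Fin (d + 1)) k, Ψ ≠ 0 ∧ ∀ x ∈ S,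
        MvPolynomial.eval (fun i => φ i x) Ψ = 0) :
    ∃ κ : ℕ, ∀ H : ℕ, 1 ≤ H →
      Set.ncard {X : Fin n → Fin R → ℤ | (∀ a j, |X a j| ≤ H) ∧
        (fun q : Fin n × Fin R => (X q.1 q.2 : k)) ∈ S} ≤ κ * H ^ d := by
  classical
  obtain ⟨κ, hκ⟩ := Pool.Agent.Y787.HS.count_gen (K := k) (d := d) (σ := Fin n × Fin R) S h
  refine ⟨κ, fun H hH => ?_⟩
  have hfin : Set.Finite {X : Fin n → Fin R → ℤ | (∀ a j, |X a j| ≤ H) ∧
        (fun q : Fin n × Fin R => (X q.1 q.2 : k)) ∈ S} := by
    refine Set.Finite.subset (Set.Finite.pi' (fun _ : Fin n => Set.Finite.pi'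
      (fun _ : Fin R => (Set.finite_Icc (-(H : ℤ)) H)))) ?_
    rintro X ⟨hX, -⟩ a j
    exact abs_le.1 (hX a j)
  rw [Set.ncard_eq_toFinset_card _ hfin]
  let g : (Fin n → Fin R → ℤ) → (Fin n × Fin R → ℤ) := fun X p => X p.1 p.2
  have hg : Function.Injective g := by
    intro A A' h
    funext i j
    exact congrFun h (i, j)
  rw [← Finset.card_image_of_injective _ hg]
  refine hκ H hH _ ?_
  intro a ha
  obtain ⟨A, hA, rfl⟩ := Finset.mem_image.1 ha
  rw [Set.Finite.mem_toFinset] at hA
  exact ⟨fun p => hA.1 _ _, hA.2⟩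

omit [Countable k] in
/-- **Existence.** -/
theorem exists_of_hyp {n R : ℕ} (l : Fin R → E) (hli : LinearIndependent k l) (hnR : n ≤ R)
    (S : Set (Fin n × Fin R → k)) (h : ∃ Ψ : MvPolynomial (Fin n × Fin R) k, Ψ ≠ 0 ∧
      ∀ x ∈ S, MvPolynomial.eval x Ψ = 0) :
    ∃ x, x ∉ S ∧ finrank k (Submodule.span k (Set.range (pt l x))) = n := by
  classical
  obtain ⟨Ψ, hΨ, hΨ0⟩ := h
  set Δ : MvPolynomial (Fin n × Fin R) k := (Matrix.of fun i i' : Fin n =>
    (MvPolynomial.X (i, Fin.castLE hnR i') : MvPolynomial (Fin n × Fin R) k)).det with hΔ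
  have heval : ∀ x : Fin n × Fin R → k, MvPolynomial.eval x Δ =
      (Matrix.of fun i i' : Fin n => x (i, Fin.castLE hnR i')).det := by
    intro x
    rw [hΔ, RingHom.map_det]
    congr 1
    ext i j
    simp
  have hΔ0 : Δ ≠ 0 := by
    intro h0
    have h1 := heval (fun p => if Fin.castLE hnR p.1 = p.2 then 1 else 0)
    rw [h0, map_zero] at h1
    have h2 : (Matrix.of fun i i' : Fin n =>
        (fun p : Fin n × Fin R => if Fin.castLE hnR p.1 = p.2 then (1 : k) else 0)
          (i, Fin.castLE hnR i')) = 1 := by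
      ext i j
      simp only [Matrix.of_apply, Matrix.one_apply]
      by_cases h : i = j
      · simp [h]
      · rw [if_neg h, if_neg fun h' => h (Fin.castLE_injective hnR h')]
    rw [h2, Matrix.det_one] at h1
    exact zero_ne_one h1
  obtain ⟨x, hx⟩ : ∃ x : Fin n × Fin R → k, MvPolynomial.eval x (Ψ * Δ) ≠ 0 := by
    by_contra hcon
    push Not at hcon
    exact mul_ne_zero hΨ hΔ0 (MvPolynomial.funext fun x => by rw [hcon x, map_zero])
  rw [map_mul] at hx
  have hx1 := left_ne_zero_of_mul hx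
  have hx2 := right_ne_zero_of_mul hx
  refine ⟨x, fun hxS => hx1 (hΨ0 x hxS), ?_⟩
  have hli' : LinearIndependent k (pt l x) := by
    rw [Fintype.linearIndependent_iff]
    intro a ha
    have h3 : ∑ j, (∑ b, a b * x (b, j)) • l j = 0 := by
      rw [← ha]
      simp only [pt, Finset.smul_sum, Finset.sum_smul, smul_smul]
      rw [Finset.sum_comm]
    have h4 := Fintype.linearIndependent_iff.1 hli _ h3
    have h5 : Matrix.vecMul a (Matrix.of fun i i' : Fin n => x (i, Fin.castLE hnR i')) = 0 := by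
      funext i'
      simp only [Matrix.vecMul, dotProduct, Matrix.of_apply, Pi.zero_apply]
      exact h4 (Fin.castLE hnR i')
    rw [heval] at hx2
    have h6 := Matrix.eq_zero_of_vecMul_eq_zero hx2 h5
    intro i
    exact congrFun h6 i
  rw [finrank_span_eq_card hli', Fintype.card_fin]

end Pool.Agent.Helper71.SFE
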