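import Mathlib
import Pool.Graph.R_seed8.Y787.AS.StrataFin
import Pool.Agent.Helper71.SFE.Rows
import Pool.Agent.Helper71.SFE.Sub

/-!
# Families of counterexamples to the strong four exponentials conjecture
-/

set_option autoImplicit false

namespace Pool.Agent.Helper71.SFE

open Finset Module
open Pool.Agent.Y787 (QC mem_QC HypC)
open Pool.Agent.R350 (BadRow row_dim)

section

variable {Cc : Type} [Field Cc] [CharZero Cc] {Lt : Submodule (QC Cc) Cc}

theorem cex_pair {M : Matrix (Fin 2) (Fin 2) Cc} (hM : Cex Lt M) (u v : Fin 2 → QC Cc)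
    (hu : u ≠ 0) (hv : v ≠ 0) : ∑ i, ∑ j, ((u i * v j : QC Cc) : Cc) * M i j ≠ 0 := by
  intro h0
  have h1 := badRow_indep (r := ![∑ i, u i • M i 0, ∑ i, u i • M i 1]) (hM.badRow u hu)
  rw [Fintype.linearIndependent_iff] at h1
  apply hv
  have hsm : ∀ (a : QC Cc) (v : Cc), a • v = (a : Cc) * v := fun a v => by
    rw [Algebra.smul_def]; rfl
  funext j
  refine h1 v ?_ j
  rw [← h0]
  simp only [Fin.sum_univ_two, hsm, Matrix.cons_val_zero, Matrix.cons_val_one]
  push_cast
  ring

theorem rank_one {k : Type} [Field k] (A : Matrix (Fin 2) (Fin 2) k) (hA : A ≠ 0)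
    (hdet : A.det = 0) : ∃ u v : Fin 2 → k, u ≠ 0 ∧ v ≠ 0 ∧ ∀ i j, A i j = u i * v j := by
  classical
  rw [Matrix.det_fin_two] at hdet
  by_cases h0 : A 0 = 0
  · refine ⟨![0, 1], A 1, ?_, ?_, ?_⟩
    · intro h
      have := congrFun h 1
      simp at this
    · intro h
      apply hA
      funext i
      fin_cases i
      · exact h0
      · exact h
    · intro i j
      fin_cases i
      · simp [h0]
      · simp
  · by_cases h00 : A 0 0 = 0
    · have h01 : A 0 1 ≠ 0 := by
        intro h
        apply h0
        funext j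
        fin_cases j
        · exact h00
        · exact h
      have h10 : A 1 0 = 0 := by
        rw [h00, zero_mul, zero_sub, neg_eq_zero] at hdet
        exact (mul_eq_zero.1 hdet).resolve_left h01
      refine ⟨![1, A 1 1 / A 0 1], A 0, ?_, h0, ?_⟩
      · intro h
        have := congrFun h 0
        simp at this
      · intro i j
        fin_cases i <;> fin_cases j
        · simp
        · simp
        · simp [h00, h10]
        · simp only [Fin.mk_one, Matrix.cons_val_one, Matrix.cons_val_fin_one]
          field_simp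
    · refine ⟨![1, A 1 0 / A 0 0], A 0, ?_, h0, ?_⟩
      · intro h
        have := congrFun h 0
        simp at this
      · intro i j
        fin_cases i <;> fin_cases j
        · simp
        · simp
        · simp only [Fin.zero_eta, Fin.mk_one, Matrix.cons_val_one, Matrix.cons_val_fin_one]
          field_simp
        · simp only [Fin.mk_one, Matrix.cons_val_one, Matrix.cons_val_fin_one]
          field_simp
          linear_combination hdet

theorem cex_noLine {M : Matrix (Fin 2) (Fin 2) Cc} (hM : Cex Lt M)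
    (A : Matrix (Fin 2) (Fin 2) (QC Cc)) (hA : A ≠ 0) :
    ∃ z : Cc, (M + z • A.map (algebraMap (QC Cc) Cc)).det ≠ 0 := by
  by_contra hcon
  push Not at hcon
  have e1 := hcon 1
  have e2 := hcon (-1)
  have e0 := hM.2.2.2
  rw [Matrix.det_fin_two] at e0 e1 e2
  simp only [Matrix.add_apply, Matrix.smul_apply, Matrix.map_apply, smul_eq_mul] at e1 e2
  have hdet' : ((A.det : QC Cc) : Cc) = 0 := by
    rw [Matrix.det_fin_two]
    push_cast
    have : (2 : Cc) * ((A 0 0 : Cc) * A 1 1 - (A 0 1 : Cc) * A 1 0) = 0 := by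
      linear_combination (norm := (simp only [IntermediateField.algebraMap_apply]; ring1))
        e1 + e2 - 2 * e0
    exact (mul_eq_zero.1 this).resolve_left two_ne_zero
  have hdet : A.det = 0 := by exact_mod_cast hdet'
  obtain ⟨u, v, hu, hv, huv⟩ := rank_one A hA hdet
  have hpol : M 0 0 * (A 1 1 : Cc) + M 1 1 * (A 0 0 : Cc) - M 0 1 * (A 1 0 : Cc) -
      M 1 0 * (A 0 1 : Cc) = 0 := by
    have : (2 : Cc) * (M 0 0 * (A 1 1 : Cc) + M 1 1 * (A 0 0 : Cc) - M 0 1 * (A 1 0 : Cc) -
      M 1 0 * (A 0 1 : Cc)) = 0 := by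
      linear_combination (norm := (simp only [IntermediateField.algebraMap_apply]; ring1))
        e1 - e2
    exact (mul_eq_zero.1 this).resolve_left two_ne_zero
  refine cex_pair hM ![u 1, - u 0] ![v 1, - v 0] ?_ ?_ ?_
  · intro h
    apply hu
    funext i
    fin_cases i
    · simpa using congrFun h 1
    · simpa using congrFun h 0
  · intro h
    apply hv
    funext i
    fin_cases i
    · simpa using congrFun h 1
    · simpa using congrFun h 0
  · rw [huv, huv, huv, huv] at hpol
    simp only [Fin.sum_univ_two, Matrix.cons_val_zero, Matrix.cons_val_one]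
    push_cast at hpol ⊢
    linear_combination hpol

/-- two independent matrices over an algebraically closed field span a singular matrix -/
theorem exists_singular {k : Type} [Field k] [IsAlgClosed k] (b : Fin 2 → Matrix (Fin 2) (Fin 2) k) :
    ∃ c : Fin 2 → k, c ≠ 0 ∧ (∑ i, c i • b i).det = 0 := by
  by_cases h1 : (b 1).det = 0
  · refine ⟨![0, 1], ?_, ?_⟩
    · intro h
      have := congrFun h 1
      simp at this
    · simpa [Fin.sum_univ_two] using h1
  · set p : Polynomial k := Polynomial.C (b 1).det * Polynomial.X ^ 2 +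
      Polynomial.C (b 0 0 0 * b 1 1 1 + b 1 0 0 * b 0 1 1 - b 0 0 1 * b 1 1 0 - b 1 0 1 * b 0 1 0) *
        Polynomial.X + Polynomial.C (b 0).det with hp
    obtain ⟨z, hz⟩ := IsAlgClosed.exists_root p (by
      rw [hp, Polynomial.degree_quadratic h1]
      exact two_ne_zero)
    refine ⟨![1, z], ?_, ?_⟩
    · intro h
      have := congrFun h 0
      simp at this
    · rw [Polynomial.IsRoot.def, hp] at hz
      simp only [Polynomial.eval_add, Polynomial.eval_mul, Polynomial.eval_C, Polynomial.eval_pow,
        Polynomial.eval_X] at hz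
      rw [Matrix.det_fin_two] at hz
      rw [Matrix.det_fin_two] at hz
      simp only [Fin.sum_univ_two, Matrix.cons_val_zero, Matrix.cons_val_one]
      rw [Matrix.det_fin_two]
      simp only [Matrix.add_apply, Matrix.smul_apply, smul_eq_mul]
      linear_combination hz

variable [IsAlgClosed Cc]

/-- The entries of a counterexample span a space of dimension at least three. -/
theorem cex_three {M : Matrix (Fin 2) (Fin 2) Cc} (hM : Cex Lt M) (E : Submodule (QC Cc) Cc)
    (hfin : Module.Finite (QC Cc) E) (hE : ∀ i j, M i j ∈ E) : 3 ≤ finrank (QC Cc) E := by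
  classical
  have hac : IsAlgClosed (QC Cc) := (algebraicClosure.isAlgClosure ℚ Cc).isAlgClosed
  by_contra hcon
  push Not at hcon
  let Φ : Matrix (Fin 2) (Fin 2) (QC Cc) →ₗ[QC Cc] E :=
    { toFun := fun B => ∑ i, ∑ j, B i j • (⟨M i j, hE i j⟩ : E)
      map_add' := fun B B' => by
        simp only [Matrix.add_apply, add_smul, Finset.sum_add_distrib]
      map_smul' := fun c B => by
        simp only [Matrix.smul_apply, smul_eq_mul, mul_smul, Finset.smul_sum, RingHom.id_apply] }
  have h1 := LinearMap.finrank_range_add_finrank_ker Φ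
  have h2 : finrank (QC Cc) (LinearMap.range Φ) ≤ finrank (QC Cc) E :=
    Submodule.finrank_le _
  have h3 : finrank (QC Cc) (Matrix (Fin 2) (Fin 2) (QC Cc)) = 4 := by
    rw [Module.finrank_matrix]
    simp
  have h4 : 1 < finrank (QC Cc) (LinearMap.ker Φ) := by omega
  obtain ⟨b0, hb0⟩ : ∃ b0 : LinearMap.ker Φ, b0 ≠ 0 := by
    have : Nontrivial (LinearMap.ker Φ) :=
      Module.nontrivial_of_finrank_pos (R := QC Cc) (by omega)
    exact exists_ne 0
  obtain ⟨b1, hb1⟩ := exists_linearIndependent_pair_of_one_lt_finrank h4 hb0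
  have hli : LinearIndependent (QC Cc) (fun i : Fin 2 => ((![b0, b1] i : LinearMap.ker Φ) :
      Matrix (Fin 2) (Fin 2) (QC Cc))) :=
    hb1.map' (LinearMap.ker Φ).subtype (LinearMap.ker_eq_bot.2 (Submodule.subtype_injective _))
  obtain ⟨c, hc0, hc⟩ := exists_singular (fun i : Fin 2 => ((![b0, b1] i : LinearMap.ker Φ) :
      Matrix (Fin 2) (Fin 2) (QC Cc)))
  set B : Matrix (Fin 2) (Fin 2) (QC Cc) := ∑ i, c i • ((![b0, b1] i : LinearMap.ker Φ) :
      Matrix (Fin 2) (Fin 2) (QC Cc)) with hB
  have hB0 : B ≠ 0 := by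
    intro h
    apply hc0
    funext i
    exact Fintype.linearIndependent_iff.1 hli c h i
  have hBk : Φ B = 0 := by
    have : B ∈ LinearMap.ker Φ := Submodule.sum_mem _ fun i _ =>
      Submodule.smul_mem _ _ (Subtype.mem _)
    exact this
  obtain ⟨u, v, hu, hv, huv⟩ := rank_one B hB0 hc
  refine cex_pair hM u v hu hv ?_
  have h5 := congrArg (fun z : E => (z : Cc)) hBk
  change ((∑ i, ∑ j, B i j • (⟨M i j, hE i j⟩ : E) : E) : Cc) = 0 at h5
  simp only [Submodule.coe_sum, Submodule.coe_smul, huv] at h5
  rw [← h5]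
  refine Finset.sum_congr rfl fun i _ => Finset.sum_congr rfl fun j _ => ?_
  rw [Algebra.smul_def]
  rfl

end

end Pool.Agent.Helper71.SFE
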