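import Mathlib
import Pool.Agent.Helper71.SFE.Mat

/-!
# Families of counterexamples: dimensions
-/

set_option autoImplicit false

namespace Pool.Agent.Helper71.SFE

open Finset Module
open Pool.Agent.Y787 (QC mem_QC HypC)
open Pool.Agent.Y787.AS (Big RE fam_coord)

/-- pairs -/
abbrev PI (s : ℕ) : Type := {p : Fin s × Fin s // p.1 ≤ p.2}

/-- the coefficients of the determinant -/
def Qf {k : Type} [Field k] {s : ℕ} (A : Fin s → Matrix (Fin 2) (Fin 2) k) (p : Fin s × Fin s) : k :=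
  if p.1 = p.2 then A p.1 0 0 * A p.2 1 1 - A p.1 0 1 * A p.2 1 0 else
    (A p.1 0 0 * A p.2 1 1 - A p.1 0 1 * A p.2 1 0) +
      (A p.2 0 0 * A p.1 1 1 - A p.2 0 1 * A p.1 1 0)

theorem sum_PI {s : ℕ} {M : Type} [AddCommMonoid M] (f : Fin s × Fin s → M) :
    ∑ p, f p = ∑ p : PI s, (if p.1.1 = p.1.2 then f p.1 else f p.1 + f p.1.swap) := by
  classical
  have h1 : ∑ p : PI s, (if p.1.1 = p.1.2 then f p.1 else f p.1 + f p.1.swap) =
      ∑ p ∈ Finset.univ.filter (fun p : Fin s × Fin s => p.1 ≤ p.2),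
        (if p.1 = p.2 then f p else f p + f p.swap) := by
    rw [← Finset.sum_subtype (Finset.univ.filter (fun p : Fin s × Fin s => p.1 ≤ p.2))
      (p := fun p : Fin s × Fin s => p.1 ≤ p.2)
      (by intro x; simp) (fun p => if p.1 = p.2 then f p else f p + f p.swap)]
  have h2 : ∀ p : Fin s × Fin s, (if p.1 = p.2 then f p else f p + f p.swap) =
      f p + (if p.1 = p.2 then 0 else f p.swap) := by
    intro p
    split_ifs <;> simp
  rw [h1, Finset.sum_congr rfl fun p _ => h2 p, Finset.sum_add_distrib,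
    ← Finset.sum_filter_add_sum_filter_not Finset.univ (fun p : Fin s × Fin s => p.1 ≤ p.2) f]
  congr 1
  rw [← Finset.sum_filter_add_sum_filter_not
    (Finset.univ.filter fun p : Fin s × Fin s => p.1 ≤ p.2) (fun p => p.1 = p.2)
    (fun p => if p.1 = p.2 then 0 else f p.swap)]
  rw [Finset.sum_eq_zero (s := (Finset.univ.filter fun p : Fin s × Fin s => p.1 ≤ p.2).filter
    fun p => p.1 = p.2) (by
      intro p hp
      rw [if_pos (Finset.mem_filter.1 hp).2]), zero_add]
  refine Finset.sum_bij' (fun p _ => p.swap) (fun p _ => p.swap) ?_ ?_ ?_ ?_ ?_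
  · intro p hp
    simp only [Finset.mem_filter, Finset.mem_univ, true_and, not_le] at hp
    simp only [Finset.mem_filter, Finset.mem_univ, true_and, Prod.fst_swap, Prod.snd_swap]
    exact ⟨hp.le, hp.ne⟩
  · intro p hp
    simp only [Finset.mem_filter, Finset.mem_univ, true_and] at hp
    simp only [Finset.mem_filter, Finset.mem_univ, true_and, Prod.fst_swap, Prod.snd_swap, not_le]
    exact lt_of_le_of_ne hp.1 hp.2
  · intro p _
    exact Prod.swap_swap p
  · intro p _
    exact Prod.swap_swap p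
  · intro p hp
    simp only [Finset.mem_filter, Finset.mem_univ, true_and, not_le] at hp
    rw [if_neg (by simpa using hp.ne), Prod.swap_swap]

variable {Cc : Type} [Field Cc]

theorem det_comb {k : Type} [Field k] [Algebra k Cc] {s : ℕ} (Y : Fin s → Cc)
    (A : Fin s → Matrix (Fin 2) (Fin 2) k) :
    (∑ i, Y i • (A i).map (algebraMap k Cc)).det =
      ∑ p : PI s, algebraMap k Cc (Qf A p.1) * (Y p.1.1 * Y p.1.2) := by
  have h1 : (∑ i, Y i • (A i).map (algebraMap k Cc)).det = ∑ p : Fin s × Fin s,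
      algebraMap k Cc (A p.1 0 0 * A p.2 1 1 - A p.1 0 1 * A p.2 1 0) * (Y p.1 * Y p.2) := by
    rw [Matrix.det_fin_two, Fintype.sum_prod_type]
    simp only [Matrix.sum_apply, Matrix.smul_apply, Matrix.map_apply, smul_eq_mul]
    rw [Finset.sum_mul_sum, Finset.sum_mul_sum, ← Finset.sum_sub_distrib]
    refine Finset.sum_congr rfl fun i _ => ?_
    rw [← Finset.sum_sub_distrib]
    refine Finset.sum_congr rfl fun j _ => ?_
    simp only [map_sub, map_mul]
    ring
  rw [h1, sum_PI]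
  refine Finset.sum_congr rfl fun p _ => ?_
  unfold Qf
  split_ifs with h
  · rfl
  · simp only [map_add, Prod.fst_swap, Prod.snd_swap]
    ring

section family

variable {s m : ℕ} (f : Fin s → Option (Fin m)) (p0 : PI s)

/-- the coordinates -/
def Yv (y : Fin m → Cc) (i : Fin s) : Cc := (f i).elim 1 y

/-- the coordinates, as polynomials -/
noncomputable def Yp (Cc : Type) [Field Cc] (i : Fin s) :
    MvPolynomial (Fin m ⊕ Fin (Fintype.card {p : PI s // p ≠ p0})) Cc :=
  (f i).elim 1 (fun j => MvPolynomial.X (Sum.inl j))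

/-- the universal quadratic polynomial -/
noncomputable def Fp (Cc : Type) [Field Cc] :
    MvPolynomial (Fin m ⊕ Fin (Fintype.card {p : PI s // p ≠ p0})) Cc :=
  Yp f p0 Cc p0.1.1 * Yp f p0 Cc p0.1.2 + ∑ p : {p : PI s // p ≠ p0},
    MvPolynomial.X (Sum.inr (Fintype.equivFin _ p)) * (Yp f p0 Cc p.1.1.1 * Yp f p0 Cc p.1.1.2)

theorem eval_Yp (z : Fin m → Cc) (t : Fin (Fintype.card {p : PI s // p ≠ p0}) → Cc) (i : Fin s) :
    MvPolynomial.eval (Sum.elim z t) (Yp f p0 Cc i) = Yv f z i := by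
  unfold Yp Yv
  cases f i with
  | none => simp
  | some j => simp

theorem eval_Fp {k : Type} [Field k] [Algebra k Cc] (A : Fin s → Matrix (Fin 2) (Fin 2) k)
    (hA : Qf A p0.1 ≠ 0) (z : Fin m → Cc) :
    algebraMap k Cc (Qf A p0.1) * MvPolynomial.eval (Sum.elim z (fun a => algebraMap k Cc
      (Qf A ((Fintype.equivFin {p : PI s // p ≠ p0}).symm a).1.1 / Qf A p0.1))) (Fp f p0 Cc) =
      (∑ i, Yv f z i • (A i).map (algebraMap k Cc)).det := by
  classical
  rw [det_comb, ← Finset.add_sum_erase Finset.univ _ (Finset.mem_univ p0), Fp, map_add, map_mul,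
    map_sum, mul_add]
  simp only [map_mul, eval_Yp, MvPolynomial.eval_X, Sum.elim_inr, Equiv.symm_apply_apply]
  congr 1
  rw [Finset.mul_sum]
  rw [← Finset.sum_subtype (Finset.univ.erase p0) (p := fun p : PI s => p ≠ p0)
    (by intro x; simp) (fun p => algebraMap k Cc (Qf A p0.1) *
      (algebraMap k Cc (Qf A p.1 / Qf A p0.1) * (Yv f z p.1.1 * Yv f z p.1.2)))]
  refine Finset.sum_congr rfl fun p _ => ?_
  rw [← mul_assoc, ← map_mul, mul_div_cancel₀ _ hA]

end family

variable [CharZero Cc] {Lt : Submodule (QC Cc) Cc}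

/-- the tuples of coordinates of counterexamples -/
def MatSet (Lt : Submodule (QC Cc) Cc) {s m R : ℕ} (l : Fin R → Cc) (f : Fin s → Option (Fin m))
    (p0 : PI s) (b : Fin m × Fin R → QC Cc) : Prop :=
  ∃ A : Fin s → Matrix (Fin 2) (Fin 2) (QC Cc), LinearIndependent (QC Cc) A ∧ Qf A p0.1 ≠ 0 ∧
    Cex Lt (∑ i, Yv f (fun j => ∑ r, algebraMap (QC Cc) Cc (b (j, r)) * l r) i •
      (A i).map (algebraMap (QC Cc) Cc))

theorem qf_ne {s m : ℕ} (f : Fin s → Option (Fin m)) (hs : 0 < s)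
    (A : Fin s → Matrix (Fin 2) (Fin 2) (QC Cc)) (hA : LinearIndependent (QC Cc) A) (y : Fin m → Cc)
    (hM : Cex Lt (∑ i, Yv f y i • (A i).map (algebraMap (QC Cc) Cc))) :
    ∃ p0 : PI s, Qf A p0.1 ≠ 0 := by
  by_contra hcon
  push Not at hcon
  have h1 : A ⟨0, hs⟩ ≠ 0 := hA.ne_zero _
  obtain ⟨z, hz⟩ := cex_noLine hM _ h1
  apply hz
  have h2 : (∑ i, Yv f y i • (A i).map (algebraMap (QC Cc) Cc)) +
      z • (A ⟨0, hs⟩).map (algebraMap (QC Cc) Cc) =
      ∑ i, (Yv f y i + (if i = ⟨0, hs⟩ then z else 0)) • (A i).map (algebraMap (QC Cc) Cc) := by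
    simp only [add_smul, Finset.sum_add_distrib, ite_smul, zero_smul]
    rw [Finset.sum_ite_eq' Finset.univ (⟨0, hs⟩ : Fin s)]
    simp
  rw [h2, det_comb]
  refine Finset.sum_eq_zero fun p _ => ?_
  rw [hcon, map_zero, zero_mul]

theorem matSet_dim [Uncountable Cc] [hH : HypC Lt] {s m R : ℕ}
    (l : Fin R → Cc) (hl : ∀ j, l j ∈ Lt)
    (hli : LinearIndependent (QC Cc) l) (f : Fin s → Option (Fin m)) (hf : ∀ j, ∃ i, f i = some j)
    (p0 : PI s) :
    DimLe (MatSet Lt l f p0) (Fintype.card {p : PI s // p ≠ p0} + m * (m - 1)) := by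
  classical
  intro φ
  obtain ⟨P, hP, hP0⟩ := fam_coord (Lt := Lt) hH.hyp Pool.Agent.Y787.AS.wts_pt (ρ := 0)
    l hl hli (fun _ : Fin 1 => Fp f p0 Cc)
    (q := Fintype.card {p : PI s // p ≠ p0} + m * (m - 1) + 1) (by
      intro ρ' hρ'
      obtain rfl : ρ' = 0 := by omega
      rw [zero_mul, Nat.sub_zero]
      omega) φ
  refine ⟨P, hP, fun b hb => ?_⟩
  obtain ⟨A, hA, hQ, hM⟩ := hb
  have hQ' : algebraMap (QC Cc) Cc (Qf A p0.1) ≠ 0 := by
    rwa [ne_eq, map_eq_zero_iff _ (algebraMap (QC Cc) Cc).injective]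
  refine hP0 (fun i j => b (i, j)) (fun a =>
      (Qf A ((Fintype.equivFin {p : PI s // p ≠ p0}).symm a).1.1 / Qf A p0.1)) ?_ ?_
  · intro _
    apply mul_left_cancel₀ hQ'
    rw [eval_Fp f p0 A hQ, mul_zero]
    exact hM.2.2.2
  · rintro ⟨V, hV, h1⟩
    have h2 : V ≠ ⊥ := by
      rintro rfl
      rw [finrank_bot] at hV
      exact lt_irrefl _ hV
    obtain ⟨c, hc, hc0⟩ := Submodule.exists_mem_ne_zero_of_ne_bot h2
    obtain ⟨j0, hj0⟩ : ∃ j0, c j0 ≠ 0 := by
      by_contra hcon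
      push Not at hcon
      exact hc0 (funext hcon)
    obtain ⟨i0, hi0⟩ := hf j0
    set C : Matrix (Fin 2) (Fin 2) (QC Cc) := ∑ i, ((f i).elim 0 c : QC Cc) • A i with hC
    have hC0 : C ≠ 0 := by
      intro h
      have h3 := Fintype.linearIndependent_iff.1 hA _ h i0
      rw [hi0] at h3
      exact hj0 h3
    obtain ⟨z, hz⟩ := cex_noLine hM C hC0
    apply hz
    have h3 := h1 0 (z • fun p => algebraMap (QC Cc) Cc (c p))
      (Submodule.smul_mem _ _ (Submodule.subset_span ⟨c, hc, rfl⟩))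
    have h4 := eval_Fp f p0 A hQ
      (fun i => (∑ j, algebraMap (QC Cc) Cc (b (i, j)) * l j) +
        (z • fun p => algebraMap (QC Cc) Cc (c p)) i)
    rw [h3, mul_zero] at h4
    rw [h4]
    congr 1
    have h5 : C.map (algebraMap (QC Cc) Cc) =
        ∑ i, algebraMap (QC Cc) Cc ((f i).elim 0 c) • (A i).map (algebraMap (QC Cc) Cc) := by
      ext a b
      simp only [hC, Matrix.map_apply, Matrix.sum_apply, Matrix.smul_apply, smul_eq_mul, map_sum,
        map_mul]
    rw [h5, Finset.smul_sum, ← Finset.sum_add_distrib]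
    refine Finset.sum_congr rfl fun i _ => ?_
    rw [smul_smul, ← add_smul]
    congr 1
    unfold Yv
    cases f i with
    | none => simp
    | some j => simp

end Pool.Agent.Helper71.SFE
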