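import Mathlib
import Pool.Agent.Helper71.SFE.Mat2

/-!
# Counterexamples with entries in the space spanned by a tuple
-/

set_option autoImplicit false

namespace Pool.Agent.Helper71.SFE

open Finset Module
open Pool.Agent.Y787 (QC mem_QC HypC)

theorem exists_sub {k W : Type} [Field k] [AddCommGroup W] [Module k W] {n : ℕ} (B : Fin n → W) :
    ∃ (s : ℕ) (e : Fin s → Fin n) (c : Matrix (Fin s) (Fin n) k), Function.Injective e ∧
      LinearIndependent k (fun i => B (e i)) ∧ (∀ i i', c i (e i') = if i = i' then 1 else 0) ∧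
      ∀ a, B a = ∑ i, c i a • B (e i) := by
  classical
  obtain ⟨κ, a, ha, hspan, hli⟩ := exists_linearIndependent' k B
  have hfin : Finite κ := Finite.of_injective a ha
  have := Fintype.ofFinite κ
  set e : Fin (Fintype.card κ) → Fin n := fun i => a ((Fintype.equivFin κ).symm i) with he
  have hinj : Function.Injective e := ha.comp (Fintype.equivFin κ).symm.injective
  have hli' : LinearIndependent k (fun i => B (e i)) :=
    hli.comp _ (Fintype.equivFin κ).symm.injective
  have hmem : ∀ b, B b ∈ Submodule.span k (Set.range fun i => B (e i)) := by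
    intro b
    have h1 : Set.range (fun i => B (e i)) = Set.range (B ∘ a) := by
      ext z
      constructor
      · rintro ⟨i, rfl⟩
        exact ⟨_, rfl⟩
      · rintro ⟨j, rfl⟩
        exact ⟨Fintype.equivFin κ j, by simp [he]⟩
    rw [h1, hspan]
    exact Submodule.subset_span ⟨b, rfl⟩
  choose c hc using fun b => (Submodule.mem_span_range_iff_exists_fun k).1 (hmem b)
  refine ⟨_, e, fun i b => c b i, hinj, hli', ?_, fun b => (hc b).symm⟩
  intro i i'
  have h1 := hc (e i')
  have h2 : ∑ j, (c (e i') j - if j = i' then 1 else 0) • B (e j) = 0 := by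
    simp only [sub_smul, Finset.sum_sub_distrib, h1, ite_smul, one_smul, zero_smul]
    simp
  have h3 := Fintype.linearIndependent_iff.1 hli' _ h2 i
  exact sub_eq_zero.1 h3

variable {Cc : Type} [Field Cc] [CharZero Cc] {Lt : Submodule (QC Cc) Cc}

theorem mat_decomp {n R : ℕ} (l : Fin R → Cc) (x : Fin n × Fin R → QC Cc)
    (M : Matrix (Fin 2) (Fin 2) Cc)
    (hM : ∀ i j, M i j ∈ Submodule.span (QC Cc) (Set.range (pt l x))) :
    ∃ (s : ℕ) (e : Fin s → Fin n) (c : Matrix (Fin s) (Fin n) (QC Cc)), Function.Injective e ∧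
      (∀ i i', c i (e i') = if i = i' then 1 else 0) ∧
      ∃ A : Fin s → Matrix (Fin 2) (Fin 2) (QC Cc), LinearIndependent (QC Cc) A ∧
        M = ∑ i, (∑ r, algebraMap (QC Cc) Cc (∑ a, c i a * x (a, r)) * l r) •
          (A i).map (algebraMap (QC Cc) Cc) := by
  classical
  choose m hm using fun i j => (Submodule.mem_span_range_iff_exists_fun (QC Cc)).1 (hM i j)
  obtain ⟨s, e, c, h1, h2, h3, h4⟩ := exists_sub (k := QC Cc)
    (fun a => Matrix.of fun i j => m i j a)
  refine ⟨s, e, c, h1, h3, _, h2, ?_⟩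
  ext i j
  rw [← hm, Matrix.sum_apply]
  have h5 : ∀ a, m i j a = ∑ i', c i' a * m i j (e i') := by
    intro a
    have := congrFun (congrFun (h4 a) i) j
    rw [Matrix.sum_apply] at this
    exact this
  have h6 : ∀ i', (∑ r, algebraMap (QC Cc) Cc (∑ a, c i' a * x (a, r)) * l r) =
      ∑ a, c i' a • pt l x a := by
    intro i'
    simp only [pt, Finset.smul_sum, smul_smul, map_sum, Finset.sum_mul]
    rw [Finset.sum_comm]
    refine Finset.sum_congr rfl fun a _ => Finset.sum_congr rfl fun r _ => ?_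
    rw [Algebra.smul_def]
  calc ∑ a, m i j a • pt l x a = ∑ a, ∑ i', (c i' a * m i j (e i')) • pt l x a := by
        refine Finset.sum_congr rfl fun a _ => ?_
        rw [h5 a, Finset.sum_smul]
    _ = ∑ i', ∑ a, (c i' a * m i j (e i')) • pt l x a := Finset.sum_comm
    _ = _ := by
        refine Finset.sum_congr rfl fun i' _ => ?_
        rw [h6, Matrix.smul_apply, Matrix.map_apply, Matrix.of_apply, smul_eq_mul, mul_comm,
          ← Algebra.smul_def, Finset.smul_sum]
        refine Finset.sum_congr rfl fun a _ => ?_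
        rw [smul_smul, mul_comm]

theorem card_le_four {s : ℕ} (A : Fin s → Matrix (Fin 2) (Fin 2) (QC Cc))
    (hA : LinearIndependent (QC Cc) A) : s ≤ 4 := by
  have h1 := hA.fintype_card_le_finrank
  rw [Fintype.card_fin, Module.finrank_matrix] at h1
  simpa using h1

variable [IsAlgClosed Cc]

theorem three_le {s : ℕ} (Y : Fin s → Cc) (A : Fin s → Matrix (Fin 2) (Fin 2) (QC Cc))
    (hM : Cex Lt (∑ i, Y i • (A i).map (algebraMap (QC Cc) Cc))) : 3 ≤ s := by
  classical
  have h1 := cex_three hM (Submodule.span (QC Cc) (Set.range Y))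
    (FiniteDimensional.span_of_finite (QC Cc) (Set.finite_range _)) (by
      intro i j
      rw [Matrix.sum_apply]
      refine Submodule.sum_mem _ fun i' _ => ?_
      rw [Matrix.smul_apply, Matrix.map_apply, smul_eq_mul, mul_comm, ← Algebra.smul_def]
      exact Submodule.smul_mem _ _ (Submodule.subset_span ⟨i', rfl⟩))
  refine h1.trans ?_
  have := finrank_range_le_card (R := QC Cc) Y
  rwa [Fintype.card_fin] at this

/-- the homogeneous families -/
def CH (Lt : Submodule (QC Cc) Cc) {R : ℕ} (l : Fin R → Cc) (s : ℕ) (p0 : PI s)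
    (b : Fin s × Fin R → QC Cc) : Prop :=
  MatSet Lt l (fun i : Fin s => some i) p0 b

/-- the inhomogeneous families, without the number 1 -/
def CB (Lt : Submodule (QC Cc) Cc) {R : ℕ} (l : Fin R → Cc) (s : ℕ) (p0 : PI s)
    (b : Fin s × Fin R → QC Cc) : Prop :=
  ∃ a : Fin s → QC Cc, CH Lt (Fin.cons 1 l : Fin (R + 1) → Cc) s p0
    (fun q => (Fin.cons (a q.1) (fun r => b (q.1, r)) : Fin (R + 1) → QC Cc) q.2)

/-- the inhomogeneous families, with the number 1 -/
def CA (Lt : Submodule (QC Cc) Cc) {R : ℕ} (l : Fin R → Cc) (s : ℕ) (p0 : PI (s + 1))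
    (b : Fin s × Fin R → QC Cc) : Prop :=
  MatSet Lt l (Fin.cons none (fun i => some i) : Fin (s + 1) → Option (Fin s)) p0 b

/-- **Homogeneous families.** -/
theorem red_hom {n R : ℕ} (l : Fin R → Cc) (x : Fin n × Fin R → QC Cc)
    (M : Matrix (Fin 2) (Fin 2) Cc)
    (hMx : ∀ i j, M i j ∈ Submodule.span (QC Cc) (Set.range (pt l x))) (hM : Cex Lt M) :
    ∃ s : ℕ, 3 ≤ s ∧ s ≤ 4 ∧ ∃ (e : Fin s → Fin n) (_ : Function.Injective e) (p0 : PI s),
      Red (CH Lt l s p0) e x := by
  obtain ⟨s, e, c, h1, h2, A, hA, hMA⟩ := mat_decomp l x M hMx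
  have hM' := hM
  rw [hMA] at hM'
  have hs3 := three_le _ A hM'
  obtain ⟨p0, hp0⟩ := qf_ne (fun i : Fin s => some i) (by omega) A hA _ hM'
  exact ⟨s, hs3, card_le_four A hA, e, h1, p0, c, h2, A, hA, hp0, hM'⟩

/-- **Inhomogeneous families.** -/
theorem red_inhom {n R : ℕ} (l : Fin R → Cc) (x : Fin n × Fin R → QC Cc)
    (M : Matrix (Fin 2) (Fin 2) Cc)
    (hMx : ∀ i j, M i j ∈ Submodule.span (QC Cc) {1} ⊔ Submodule.span (QC Cc) (Set.range (pt l x)))
    (hM : Cex Lt M) :
    (∃ s : ℕ, 3 ≤ s ∧ s ≤ 4 ∧ ∃ (e : Fin s → Fin n) (_ : Function.Injective e) (p0 : PI s),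
      Red (CB Lt l s p0) e x) ∨
    ∃ s : ℕ, 2 ≤ s ∧ s ≤ 3 ∧ ∃ (e : Fin s → Fin n) (_ : Function.Injective e) (p0 : PI (s + 1)),
      Red (CA Lt l s p0) e x := by
  classical
  have h0 : ∀ i j, ∃ (α : QC Cc) (w : Cc), w ∈ Submodule.span (QC Cc) (Set.range (pt l x)) ∧
      algebraMap (QC Cc) Cc α + w = M i j := by
    intro i j
    obtain ⟨z, hz, w, hw, h⟩ := Submodule.mem_sup.1 (hMx i j)
    obtain ⟨α, rfl⟩ := Submodule.mem_span_singleton.1 hz
    refine ⟨α, w, hw, ?_⟩
    rw [← h, Algebra.smul_def, mul_one]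
  choose α w hw hαw using h0
  obtain ⟨s, e, c, h1, h2, A, hA, hMA⟩ := mat_decomp l x (Matrix.of w) hw
  set A0 : Matrix (Fin 2) (Fin 2) (QC Cc) := Matrix.of α with hA0
  have hMW : M = A0.map (algebraMap (QC Cc) Cc) + Matrix.of w := by
    ext i j
    exact (hαw i j).symm
  by_cases hcase : A0 ∈ Submodule.span (QC Cc) (Set.range A)
  · left
    obtain ⟨a, ha⟩ := (Submodule.mem_span_range_iff_exists_fun (QC Cc)).1 hcase
    have hM2 : M = ∑ i, Yv (fun i : Fin s => some i) (fun j => ∑ r,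
        algebraMap (QC Cc) Cc ((Fin.cons (a j) (fun r => ∑ a, c j a * x (a, r)) :
          Fin (R + 1) → QC Cc) r) *
          (Fin.cons 1 l : Fin (R + 1) → Cc) r) i • (A i).map (algebraMap (QC Cc) Cc) := by
      rw [hMW, hMA, ← ha]
      have h3 : (∑ i, a i • A i).map (algebraMap (QC Cc) Cc) =
          ∑ i, algebraMap (QC Cc) Cc (a i) • (A i).map (algebraMap (QC Cc) Cc) := by
        ext i j
        simp only [Matrix.map_apply, Matrix.sum_apply, Matrix.smul_apply, smul_eq_mul, map_sum,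
          map_mul]
      rw [h3, ← Finset.sum_add_distrib]
      refine Finset.sum_congr rfl fun i _ => ?_
      rw [← add_smul]
      congr 1
      unfold Yv
      rw [Option.elim_some, Fin.sum_univ_succ]
      simp only [Fin.cons_zero, Fin.cons_succ, mul_one]
    have hM' := hM
    rw [hM2] at hM'
    have hs3 := three_le _ A hM'
    obtain ⟨p0, hp0⟩ := qf_ne (fun i : Fin s => some i) (by omega) A hA _ hM'
    exact ⟨s, hs3, card_le_four A hA, e, h1, p0, c, h2, a, A, hA, hp0, hM'⟩
  · right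
    have hli : LinearIndependent (QC Cc) (Fin.cons A0 A : Fin (s + 1) → _) :=
      linearIndependent_finCons.2 ⟨hA, hcase⟩
    have hM2 : M = ∑ i, Yv (Fin.cons none (fun i => some i) : Fin (s + 1) → Option (Fin s))
        (fun j => ∑ r, algebraMap (QC Cc) Cc (∑ a, c j a * x (a, r)) * l r) i •
          ((Fin.cons A0 A : Fin (s + 1) → Matrix (Fin 2) (Fin 2) (QC Cc)) i).map
            (algebraMap (QC Cc) Cc) := by
      rw [hMW, hMA, Fin.sum_univ_succ]
      unfold Yv
      simp only [Fin.cons_zero, Fin.cons_succ, Option.elim_none, Option.elim_some, one_smul]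
    have hM' := hM
    rw [hM2] at hM'
    have hs3 := three_le _ _ hM'
    have hs4 := card_le_four _ hli
    obtain ⟨p0, hp0⟩ := qf_ne (Fin.cons none (fun i => some i) : Fin (s + 1) → Option (Fin s))
      (by omega) _ hli _ hM'
    exact ⟨s, by omega, by omega, e, h1, p0, c, h2, _, hli, hp0, hM'⟩

variable [Uncountable Cc] [hH : HypC Lt]

theorem card_PI_ne {s : ℕ} (p0 : PI s) :
    Fintype.card {p : PI s // p ≠ p0} = Fintype.card (PI s) - 1 := by
  classical
  rw [Fintype.card_subtype_compl]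
  simp

theorem DimLe.mono {k : Type} [Field k] {s R : ℕ} {C : (Fin s × Fin R → k) → Prop} {D D' : ℕ}
    (h : DimLe C D) (hD : D ≤ D') : DimLe C D' := by
  intro φ
  obtain ⟨P, hP, hP0⟩ := h (fun i => φ (Fin.castLE (by omega) i))
  refine ⟨MvPolynomial.rename (Fin.castLE (by omega)) P, ?_, fun b hb => ?_⟩
  · intro h0
    exact hP (MvPolynomial.rename_injective _ (Fin.castLE_injective _) (by rw [h0, map_zero]))
  · rw [MvPolynomial.eval_rename]
    exact hP0 b hb

omit [IsAlgClosed Cc] in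
theorem dim_CH {R : ℕ} (l : Fin R → Cc) (hl : ∀ j, l j ∈ Lt) (hli : LinearIndependent (QC Cc) l)
    {s : ℕ} (p0 : PI s) : DimLe (CH Lt l s p0) (Fintype.card (PI s) - 1 + s * (s - 1)) := by
  have h := matSet_dim l hl hli (fun i : Fin s => some i) (fun j => ⟨j, rfl⟩) p0
  rw [card_PI_ne] at h
  exact h

omit [IsAlgClosed Cc] in
theorem dim_CB {R : ℕ} (l : Fin R → Cc) (hl : ∀ j, l j ∈ Lt)
    (hli : LinearIndependent (QC Cc) (Fin.cons 1 l : Fin (R + 1) → Cc))
    {s : ℕ} (p0 : PI s) : DimLe (CB Lt l s p0) (Fintype.card (PI s) - 1 + s * (s - 1)) := by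
  intro φ
  have h := dim_CH (Lt := Lt) (Fin.cons 1 l : Fin (R + 1) → Cc) (by
    intro j
    refine Fin.cases ?_ (fun j => ?_) j
    · exact hH.one
    · exact hl j) hli p0
  obtain ⟨P, hP, hP0⟩ := h (fun i => φ i ∘ₗ LinearMap.funLeft (QC Cc) (QC Cc)
    (fun q : Fin s × Fin R => (q.1, q.2.succ)))
  refine ⟨P, hP, fun b hb => ?_⟩
  obtain ⟨a, ha⟩ := hb
  have h1 := hP0 _ ha
  exact h1

omit [IsAlgClosed Cc] in
theorem dim_CA {R : ℕ} (l : Fin R → Cc) (hl : ∀ j, l j ∈ Lt) (hli : LinearIndependent (QC Cc) l)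
    {s : ℕ} (p0 : PI (s + 1)) :
    DimLe (CA Lt l s p0) (Fintype.card (PI (s + 1)) - 1 + s * (s - 1)) := by
  have h := matSet_dim l hl hli (Fin.cons none (fun i => some i) : Fin (s + 1) → Option (Fin s))
    (fun j => ⟨j.succ, rfl⟩) p0
  rw [card_PI_ne] at h
  exact h

end Pool.Agent.Helper71.SFE
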