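import Mathlib
import Pool.Agent.Helper71.SFE.Mat3

/-!
# Generic subspaces and the strong four exponentials conjecture
-/

set_option autoImplicit false

namespace Pool.Agent.Helper71.SFE

open Finset Module
open Pool.Agent.Y787 (QC mem_QC HypC)
open Pool.Agent.R350 (BadRow row_dim)

/-- the sets of dimension at most `d` -/
def DimS {k : Type} [Field k] {σ : Type} (d : ℕ) (S : Set (σ → k)) : Prop :=
  ∀ φ : Fin (d + 1) → ((σ → k) →ₗ[k] k),
    ∃ Ψ : MvPolynomial (Fin (d + 1)) k, Ψ ≠ 0 ∧ ∀ x ∈ S,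
      MvPolynomial.eval (fun i => φ i x) Ψ = 0

theorem DimS.union {k : Type} [Field k] {σ : Type} {d : ℕ} {S S' : Set (σ → k)}
    (h : DimS d S) (h' : DimS d S') : DimS d (S ∪ S') := by
  intro φ
  obtain ⟨Ψ, h1, h2⟩ := h φ
  obtain ⟨Ψ', h1', h2'⟩ := h' φ
  refine ⟨Ψ * Ψ', mul_ne_zero h1 h1', fun x hx => ?_⟩
  rw [map_mul]
  rcases hx with hx | hx
  · rw [h2 x hx, zero_mul]
  · rw [h2' x hx, mul_zero]

theorem DimS.mono {k : Type} [Field k] {σ : Type} {d : ℕ} {S S' : Set (σ → k)}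
    (h : DimS d S) (hS : S' ⊆ S) : DimS d S' := by
  intro φ
  obtain ⟨Ψ, h1, h2⟩ := h φ
  exact ⟨Ψ, h1, fun x hx => h2 x (hS hx)⟩

theorem arith {s n R c D : ℕ} (hs : s ≤ n) (hn : n ≤ R) (h : D + c ≤ s * s + s * (R - n)) :
    D + (s * (n - s) + (n - s) * R) ≤ n * R - c := by
  obtain ⟨a, rfl⟩ := Nat.exists_eq_add_of_le hs
  obtain ⟨m, rfl⟩ := Nat.exists_eq_add_of_le hn
  have e1 : s + a - s = a := by omega
  have e2 : s + a + m - (s + a) = m := by omega
  rw [e2] at h
  rw [e1]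
  have e3 : (s + a) * (s + a + m) = s * s + s * m + s * a + a * (s + a + m) := by ring
  omega

theorem red_fixed {k : Type} [Field k] [Infinite k] [Countable k] {n R s s' c D : ℕ}
    (C : PI s' → (Fin s × Fin R → k) → Prop) (hC : ∀ p0, DimLe (C p0) D) (hn : n ≤ R)
    (h : D + c ≤ s * s + s * (R - n)) :
    DimS (n * R - c) {x : Fin n × Fin R → k | ∃ (e : Fin s → Fin n) (_ : Function.Injective e)
      (p0 : PI s'), Red (C p0) e x} := by
  classical
  refine red_dim (T := (Fin s ↪ Fin n) × PI s') (fun _ => s) (fun _ => D) (fun t => t.1)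
    (fun t => t.1.injective) (fun t => C t.2) (fun t => hC t.2) (fun t => ?_) _ ?_
  · refine arith ?_ hn h
    have := Fintype.card_le_of_embedding t.1
    simpa using this
  · rintro x ⟨e, he, p0, hx⟩
    exact ⟨(⟨e, he⟩, p0), hx⟩

section

variable {Cc : Type} [Field Cc] [CharZero Cc] {Lt : Submodule (QC Cc) Cc} [IsAlgClosed Cc]
  [hH : HypC Lt]

/-- there is no counterexample with entries in `V` -/
def NoCex (Lt V : Submodule (QC Cc) Cc) : Prop :=
  ∀ M : Matrix (Fin 2) (Fin 2) Cc, (∀ i j, M i j ∈ V) → ¬ Cex Lt M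

instance infinite_QC : Infinite (QC Cc) := CharZero.infinite _

variable [Uncountable Cc]

/-- **Homogeneous case.** -/
theorem hom_dim {n R c : ℕ} (l : Fin R → Cc) (hl : ∀ j, l j ∈ Lt)
    (hli : LinearIndependent (QC Cc) l) (h1 : c + 5 ≤ 4 * (R - n)) (h2 : c + 2 ≤ 3 * (R - n)) :
    DimS (n * R - c) {x : Fin n × Fin R → QC Cc |
      ¬ NoCex Lt (Submodule.span (QC Cc) (Set.range (pt l x)))} := by
  have c3 : Fintype.card (PI 3) = 6 := by decide
  have c4 : Fintype.card (PI 4) = 10 := by decide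
  refine DimS.mono ((red_fixed (n := n) (c := c) (CH Lt l 3) (fun p0 => dim_CH l hl hli p0)
    (by omega) (by omega)).union (red_fixed (n := n) (c := c) (CH Lt l 4)
      (fun p0 => dim_CH l hl hli p0) (by omega) (by omega))) ?_
  intro x hx
  simp only [Set.mem_ofPred_eq, NoCex] at hx
  push Not at hx
  obtain ⟨M, hMx, hM⟩ := hx
  obtain ⟨s, hs3, hs4, e, he, p0, hr⟩ := red_hom l x M hMx hM
  obtain rfl | rfl : s = 3 ∨ s = 4 := by omega
  · exact Or.inl ⟨e, he, p0, hr⟩
  · exact Or.inr ⟨e, he, p0, hr⟩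

/-- **Inhomogeneous case.** -/
theorem inhom_dim {n R c : ℕ} (l : Fin R → Cc) (hl : ∀ j, l j ∈ Lt)
    (hli : LinearIndependent (QC Cc) (Fin.cons 1 l : Fin (R + 1) → Cc))
    (h1 : c + 3 ≤ 2 * (R - n)) (h2 : c + 6 ≤ 3 * (R - n)) :
    DimS (n * R - c) {x : Fin n × Fin R → QC Cc |
      ¬ NoCex Lt (Submodule.span (QC Cc) {1} ⊔ Submodule.span (QC Cc) (Set.range (pt l x)))} := by
  have c3 : Fintype.card (PI 3) = 6 := by decide
  have c4 : Fintype.card (PI 4) = 10 := by decide
  have hli' : LinearIndependent (QC Cc) l := (linearIndependent_finCons.1 hli).1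
  refine DimS.mono (((red_fixed (n := n) (c := c) (CB Lt l 3) (fun p0 => dim_CB l hl hli p0)
    (by omega) (by omega)).union (red_fixed (n := n) (c := c) (CB Lt l 4)
      (fun p0 => dim_CB l hl hli p0) (by omega) (by omega))).union
    ((red_fixed (n := n) (c := c) (CA Lt l 2) (fun p0 => dim_CA l hl hli' p0)
    (by omega) (by simp only [c3]; omega)).union (red_fixed (n := n) (c := c) (CA Lt l 3)
      (fun p0 => dim_CA l hl hli' p0) (by omega) (by simp only [c4]; omega)))) ?_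
  intro x hx
  simp only [Set.mem_ofPred_eq, NoCex] at hx
  push Not at hx
  obtain ⟨M, hMx, hM⟩ := hx
  rcases red_inhom l x M hMx hM with ⟨s, hs3, hs4, e, he, p0, hr⟩ | ⟨s, hs3, hs4, e, he, p0, hr⟩
  · obtain rfl | rfl : s = 3 ∨ s = 4 := by omega
    · exact Or.inl (Or.inl ⟨e, he, p0, hr⟩)
    · exact Or.inl (Or.inr ⟨e, he, p0, hr⟩)
  · obtain rfl | rfl : s = 2 ∨ s = 3 := by omega
    · exact Or.inr (Or.inl ⟨e, he, p0, hr⟩)
    · exact Or.inr (Or.inr ⟨e, he, p0, hr⟩)

end

section rows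

variable {Cc : Type} [Field Cc] [CharZero Cc] {Lt : Submodule (QC Cc) Cc} [IsAlgClosed Cc]
  [hH : HypC Lt]

/-- the rows -/
def CR (Lt : Submodule (QC Cc) Cc) {R : ℕ} (l : Fin R → Cc) (b : Fin 2 × Fin R → QC Cc) : Prop :=
  BadRow Lt (∑ r, b (0, r) • l r) (∑ r, b (1, r) • l r)

theorem dim_CR {R : ℕ} (l : Fin R → Cc) (hl : ∀ j, l j ∈ Lt)
    (hli : LinearIndependent (QC Cc) l) : DimLe (CR Lt l) 10 := by
  classical
  intro φ
  set F : Submodule (QC Cc) Cc := Submodule.span (QC Cc) (Set.range l) with hF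
  have hfin : Module.Finite (QC Cc) F := FiniteDimensional.span_of_finite _ (Set.finite_range _)
  let bs : Basis (Fin R) (QC Cc) F := Basis.span hli
  let κ : (Fin 2 → F) →ₗ[QC Cc] (Fin 2 × Fin R → QC Cc) :=
    { toFun := fun r q => bs.repr (r q.1) q.2
      map_add' := fun r r' => by
        funext q
        simp
      map_smul' := fun a r => by
        funext q
        simp }
  obtain ⟨P, hP, hP0⟩ := (badSet_rows (Lt := Lt)).dim F hfin (by
    rw [hF, Submodule.span_le]
    rintro _ ⟨j, rfl⟩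
    exact hl j) (fun i => φ i ∘ₗ κ)
  refine ⟨P, hP, fun b hb => ?_⟩
  let r : Fin 2 → F := fun i => ∑ j, b (i, j) • bs j
  have hr : ∀ i, (r i : Cc) = ∑ j, b (i, j) • l j := by
    intro i
    change ((∑ j, b (i, j) • bs j : F) : Cc) = _
    rw [Submodule.coe_sum]
    refine Finset.sum_congr rfl fun j _ => ?_
    rw [Submodule.coe_smul]
    congr 1
    exact congrArg Subtype.val (Basis.span_apply hli j)
  have hκ : κ r = b := by
    funext q
    change bs.repr (∑ j, b (q.1, j) • bs j) q.2 = _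
    rw [bs.repr_sum_self]
  have h1 := hP0 r (by
    simp only [hr]
    exact hb)
  simp only [LinearMap.comp_apply, hκ] at h1
  exact h1

omit [IsAlgClosed Cc] hH in
theorem red_rows {n R : ℕ} (l : Fin R → Cc) (x : Fin n × Fin R → QC Cc) (r : Fin 2 → Cc)
    (hr : ∀ i, r i ∈ Submodule.span (QC Cc) (Set.range (pt l x))) (hB : BadRow Lt (r 0) (r 1)) :
    ∃ e : Fin 2 → Fin n, Function.Injective e ∧ Red (CR Lt l) e x := by
  classical
  choose A hA using fun i => (Submodule.mem_span_range_iff_exists_fun (QC Cc)).1 (hr i)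
  have hli := badRow_indep hB
  obtain ⟨e, he, hdet⟩ := exists_minor (Matrix.of A) (by
    intro w hw
    have h1 : ∑ i, w i • r i = 0 := by
      simp only [← hA, Finset.smul_sum, smul_smul]
      rw [Finset.sum_comm]
      refine Finset.sum_eq_zero fun a _ => ?_
      rw [← Finset.sum_smul]
      have h2 := hw a
      simp only [Matrix.of_apply] at h2
      rw [h2, zero_smul]
    funext i
    exact Fintype.linearIndependent_iff.1 hli w h1 i)
  set N : Matrix (Fin 2) (Fin 2) (QC Cc) := Matrix.of fun i i' => Matrix.of A i (e i') with hN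
  refine ⟨e, he, N⁻¹ * Matrix.of A, ?_, ?_⟩
  · intro i i'
    have h1 : (N⁻¹ * N) i i' = if i = i' then 1 else 0 := by
      rw [Matrix.nonsing_inv_mul _ (isUnit_iff_ne_zero.2 hdet), Matrix.one_apply]
    rw [← h1]
    rfl
  · have h1 := badRow_act hB N⁻¹ (by
      intro h0
      have h2 := Matrix.det_nonsing_inv_mul_det N (isUnit_iff_ne_zero.2 hdet)
      rw [h0, zero_mul] at h2
      exact zero_ne_one h2)
    have h3 : ∀ i, ∑ j, N⁻¹ i j • r j =
        ∑ t, (∑ a, (N⁻¹ * Matrix.of A) i a * x (a, t)) • l t := by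
      intro i
      simp only [← hA, pt, Finset.smul_sum, Finset.sum_smul, smul_smul, Matrix.mul_apply,
        Matrix.of_apply, Finset.sum_mul]
      rw [Finset.sum_comm]
      rw [Finset.sum_comm (s := (Finset.univ : Finset (Fin R)))]
      refine Finset.sum_congr rfl fun a _ => ?_
      rw [Finset.sum_comm]
      refine Finset.sum_congr rfl fun t _ => Finset.sum_congr rfl fun j _ => ?_
      congr 1
      ring
    rw [h3, h3] at h1
    exact h1

/-- **Rows.** -/
theorem rows_dim {n R c : ℕ} (l : Fin R → Cc) (hl : ∀ j, l j ∈ Lt)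
    (hli : LinearIndependent (QC Cc) l) (h1 : c + 6 ≤ 2 * (R - n)) :
    DimS (n * R - c) {x : Fin n × Fin R → QC Cc |
      ∃ M, LineIn (Submodule.span (QC Cc) (Set.range (pt l x))) M ∧ Cex Lt M} := by
  refine DimS.mono (red_fixed (n := n) (c := c) (s' := 1) (fun _ => CR Lt l)
    (fun p0 => dim_CR l hl hli) (by omega) (by omega)) ?_
  rintro x ⟨M, hMx, hM⟩
  have h2 : ¬ Free (fun r : Fin 2 → Cc => BadRow Lt (r 0) (r 1))
      (Submodule.span (QC Cc) (Set.range (pt l x))) := by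
    rw [free_iff]
    · push Not
      exact ⟨M, hMx, hM⟩
    · rw [Submodule.span_le]
      rintro _ ⟨a, rfl⟩
      exact Submodule.sum_mem _ fun j _ => Submodule.smul_mem _ _ (hl j)
  simp only [Free] at h2
  push Not at h2
  obtain ⟨r, hr, hB⟩ := h2
  obtain ⟨e, he, hred⟩ := red_rows l x r hr hB
  exact ⟨e, he, ⟨(0, 0), le_rfl⟩, hred⟩

end rows

end Pool.Agent.Helper71.SFE
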